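import Mathlib

/-!
Signed permutation modules: a finite group acting on a finite set with a central free involution,
an odd integer weight, and the lattice of odd vectors orthogonal to all translates of the weight.
-/

set_option linter.unusedSectionVars false
set_option linter.style.haveILetI false

namespace Pool.Agent.Lib.MP_557161_ag

open Finset MulAction

/-- A free involution of `X` induced by an element of `G` and commuting with the action. -/
structure Conj (G X : Type) [Group G] [MulAction G X] where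
  c : G
  comm : ∀ (g : G) (x : X), g • c • x = c • g • x
  cc : ∀ x : X, c • c • x = x
  ne : ∀ x : X, c • x ≠ x

variable {G X : Type} [Group G] [MulAction G X] [Fintype X] [DecidableEq X]

namespace Conj

variable (C : Conj G X)

/-- Odd functions. -/
def Odd' (r : X → ℤ) : Prop := ∀ x, r (C.c • x) = - r x

/-- Odd vectors orthogonal to all translates of `u`. -/
def Rel (u r : X → ℤ) : Prop := C.Odd' r ∧ ∀ g : G, ∑ x, r x * u (g • x) = 0

/-- Half systems. -/
def Half (Φ : Finset X) : Prop := ∀ x, x ∈ Φ ↔ C.c • x ∉ Φ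

theorem exists_half : ∃ Φ : Finset X, C.Half Φ := by
  let e := Fintype.equivFin X
  refine ⟨univ.filter fun x => e x < e (C.c • x), fun x => ?_⟩
  simp only [mem_filter, mem_univ, true_and, C.cc, not_lt]
  have : e (C.c • x) ≠ e x := fun h => C.ne x (e.injective h)
  exact ⟨fun h => h.le, fun h => lt_of_le_of_ne h this.symm⟩

theorem sum_half {A : Type} [AddCommMonoid A] {Φ : Finset X} (hΦ : C.Half Φ) (f : X → A) :
    ∑ x, f x = ∑ x ∈ Φ, f x + ∑ x ∈ Φ, f (C.c • x) := by
  rw [← sum_add_sum_compl Φ]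
  congr 1
  symm
  refine sum_bij (fun x _ => C.c • x) ?_ ?_ ?_ ?_
  · intro x hx
    simpa using (hΦ x).1 hx
  · intro x _ y _ h
    exact MulAction.injective C.c h
  · intro y hy
    refine ⟨C.c • y, ?_, C.cc y⟩
    rw [hΦ, C.cc]
    simpa using hy
  · intros; rfl

theorem card_half {Φ : Finset X} (hΦ : C.Half Φ) : Fintype.card X = 2 * Φ.card := by
  have := C.sum_half hΦ (fun _ => (1 : ℕ))
  simp only [sum_const, card_univ, smul_eq_mul, mul_one] at this
  omega

variable {C}

theorem Rel.half {u r : X → ℤ} (hu : C.Odd' u) (hr : C.Rel u r) {Φ : Finset X} (hΦ : C.Half Φ)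
    (g : G) : ∑ x ∈ Φ, r x * u (g • x) = 0 := by
  have h := hr.2 g
  rw [C.sum_half hΦ] at h
  have : ∑ x ∈ Φ, r (C.c • x) * u (g • C.c • x) = ∑ x ∈ Φ, r x * u (g • x) :=
    sum_congr rfl fun x _ => by rw [C.comm, hr.1, hu]; ring
  rw [this] at h
  linarith

theorem Rel.smul {u r : X → ℤ} (hr : C.Rel u r) (h : G) : C.Rel u fun x => r (h • x) := by
  refine ⟨fun x => by show r (h • C.c • x) = _; rw [C.comm, hr.1], fun g => ?_⟩
  have := hr.2 (g * h⁻¹)
  rw [← this]
  exact Fintype.sum_equiv (MulAction.toPerm h) _ _ fun x => by simp [mul_smul]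

theorem Rel.zero (u : X → ℤ) : C.Rel u 0 := ⟨fun x => by simp, fun g => by simp⟩

theorem Rel.add {u r s : X → ℤ} (hr : C.Rel u r) (hs : C.Rel u s) : C.Rel u (r + s) :=
  ⟨fun x => by simp only [Pi.add_apply, hr.1 x, hs.1 x]; ring, fun g => by
    simp only [Pi.add_apply, add_mul, sum_add_distrib, hr.2 g, hs.2 g, add_zero]⟩

theorem Rel.neg {u r : X → ℤ} (hr : C.Rel u r) : C.Rel u (-r) :=
  ⟨fun x => by simp only [Pi.neg_apply, hr.1 x], fun g => by
    simp only [Pi.neg_apply, neg_mul, sum_neg_distrib, hr.2 g, neg_zero]⟩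

theorem Rel.sub {u r s : X → ℤ} (hr : C.Rel u r) (hs : C.Rel u s) : C.Rel u (r - s) := by
  rw [sub_eq_add_neg]; exact hr.add hs.neg

theorem Rel.of_mul {u r : X → ℤ} {l : ℤ} (hl : l ≠ 0) (hr : C.Rel u fun x => l * r x) :
    C.Rel u r := by
  refine ⟨fun x => ?_, fun g => ?_⟩
  · have := hr.1 x
    apply mul_left_cancel₀ hl
    simp only at this
    rw [this]; ring
  · have := hr.2 g
    simp only [mul_assoc, ← mul_sum] at this
    exact (mul_eq_zero.1 this).resolve_left hl

/-- A nonzero relation can be divided until it is primitive at `l`. -/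
theorem Rel.exists_prim {u : X → ℤ} {l : ℕ} (hl : 2 ≤ l) :
    ∀ (n : ℕ) (r : X → ℤ), ∑ x, (r x).natAbs ≤ n → C.Rel u r → r ≠ 0 →
      ∃ s, C.Rel u s ∧ (∃ x, ¬ (l : ℤ) ∣ s x) ∧ ∀ x, (s x).natAbs ≤ (r x).natAbs := by
  intro n
  induction n with
  | zero =>
    intro r h _ h0
    exfalso; apply h0
    funext x
    have := (sum_eq_zero_iff.1 (Nat.le_zero.1 h)) x (mem_univ _)
    simpa using this
  | succ n ih =>
    intro r h hr h0
    by_cases hd : ∀ x, (l : ℤ) ∣ r x
    · choose s hs using hd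
      have hs0 : s ≠ 0 := by
        rintro rfl
        apply h0; funext x; simp [hs]
      have hle : ∀ x, (s x).natAbs ≤ (r x).natAbs := fun x => by
        rw [hs, Int.natAbs_mul, Int.natAbs_natCast]
        exact Nat.le_mul_of_pos_left _ (by omega)
      obtain ⟨x, hx⟩ := Function.ne_iff.1 hs0
      have hlt : (s x).natAbs < (r x).natAbs := by
        rw [hs, Int.natAbs_mul, Int.natAbs_natCast]
        have : 0 < (s x).natAbs := Int.natAbs_pos.2 hx
        nlinarith
      have hsum : ∑ x, (s x).natAbs < ∑ x, (r x).natAbs :=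
        sum_lt_sum (fun x _ => hle x) ⟨x, mem_univ _, hlt⟩
      have hrel : C.Rel u s := by
        refine Rel.of_mul (l := l) (by omega) ?_
        have : r = fun x => (l : ℤ) * s x := funext hs
        rwa [this] at hr
      obtain ⟨t, ht, h1, h2⟩ := ih s (by omega) hrel hs0
      exact ⟨t, ht, h1, fun x => (h2 x).trans (hle x)⟩
    · push Not at hd
      exact ⟨r, hr, hd, fun _ => le_rfl⟩

/-- Reductions of relations modulo `l`. -/
def redSub (C : Conj G X) (u : X → ℤ) (l : ℕ) : AddSubgroup (X → ZMod l) where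
  carrier := {f | ∃ r, C.Rel u r ∧ ∀ x, f x = (r x : ZMod l)}
  add_mem' := by
    rintro f g ⟨r, hr, hf⟩ ⟨s, hs, hg⟩
    exact ⟨r + s, hr.add hs, fun x => by simp [hf, hg]⟩
  zero_mem' := ⟨0, Rel.zero u, fun x => by simp⟩
  neg_mem' := by
    rintro f ⟨r, hr, hf⟩
    exact ⟨-r, hr.neg, fun x => by simp [hf]⟩

/-- An `l`-group fixes a nonzero vector in the reduction modulo `l` of the relation lattice. -/
theorem Rel.exists_fixed {u r : X → ℤ} {l : ℕ} [hl : Fact l.Prime] (hr : C.Rel u r) (h0 : r ≠ 0)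
    (Q : Subgroup G) (hQ : IsPGroup l Q) :
    ∃ s, C.Rel u s ∧ (∃ x, ¬ (l : ℤ) ∣ s x) ∧
      ∀ τ ∈ Q, ∀ x, ((s (τ • x) : ℤ) : ZMod l) = s x := by
  obtain ⟨s, hs, ⟨x₀, hx₀⟩, -⟩ := Rel.exists_prim hl.out.two_le _ r le_rfl hr h0
  let Λ := redSub C u l
  letI : MulAction Q Λ :=
    { smul := fun τ f => ⟨fun x => f.1 ((τ : G)⁻¹ • x), by
        obtain ⟨r, hr, hf⟩ := f.2
        exact ⟨_, hr.smul (τ : G)⁻¹, fun x => hf _⟩⟩
      one_smul := fun f => Subtype.ext (funext fun x => by
        show f.1 (((1 : Q) : G)⁻¹ • x) = f.1 x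
        simp)
      mul_smul := fun a b f => Subtype.ext (funext fun x => by
        show f.1 (((a * b : Q) : G)⁻¹ • x) = f.1 ((b : G)⁻¹ • (a : G)⁻¹ • x)
        simp [mul_smul]) }
  have hsm : ∀ (τ : Q) (f : Λ) (x : X), (τ • f).1 x = f.1 ((τ : G)⁻¹ • x) := fun _ _ _ => rfl
  let f₀ : Λ := ⟨fun x => (s x : ZMod l), s, hs, fun _ => rfl⟩
  have hf₀ : f₀ ≠ 0 := by
    intro h
    have := congrFun (congrArg Subtype.val h) x₀
    exact hx₀ ((ZMod.intCast_zmod_eq_zero_iff_dvd _ _).1 this)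
  have hord : addOrderOf f₀ = l := by
    refine addOrderOf_eq_prime ?_ hf₀
    refine Subtype.ext (funext fun x => ?_)
    simp
  have hdvd : l ∣ Nat.card Λ := by
    have := addOrderOf_dvd_natCard f₀
    rwa [hord] at this
  have h0fix : (0 : Λ) ∈ fixedPoints Q Λ := fun τ => Subtype.ext (funext fun x => rfl)
  obtain ⟨b, hb, hb0⟩ := hQ.exists_fixed_point_of_prime_dvd_card_of_fixed_point Λ hdvd h0fix
  obtain ⟨t, ht, hbt⟩ := b.2
  refine ⟨t, ht, ?_, fun τ hτ x => ?_⟩
  · by_contra hcon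
    push Not at hcon
    apply hb0
    refine Subtype.ext (funext fun x => ?_)
    rw [hbt]
    exact ((ZMod.intCast_zmod_eq_zero_iff_dvd _ _).2 (hcon x)).symm
  · have := congrFun (congrArg Subtype.val (hb ⟨τ⁻¹, Q.inv_mem hτ⟩)) x
    rw [hsm] at this
    simpa [hbt] using this

omit [Fintype X] [DecidableEq X] in
theorem ne_of_odd (C : Conj G X) {σ : G} {n : ℕ} (hn : Odd n) (hσ : σ ^ n = 1) (y : X) :
    σ • y ≠ C.c • y := by
  intro h
  have h2 : (σ ^ 2) • y = y := by
    rw [pow_two, mul_smul, h, C.comm, h, C.cc]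
  obtain ⟨m, rfl⟩ := hn
  have h3 : ∀ k : ℕ, (σ ^ 2) ^ k • y = y := fun k => by
    induction k with
    | zero => simp
    | succ k ih => rw [pow_succ, mul_smul, h2, ih]
  have : σ • y = y := by
    have h4 : (σ ^ (2 * m + 1)) • y = σ • y := by
      rw [pow_succ', mul_smul, pow_mul, h3]
    rw [← h4, hσ, one_smul]
  exact C.ne y (h.symm.trans this)

end Conj

omit [Fintype X] [DecidableEq X] in
/-- Orbits of a Sylow subgroup keep the `l`-part of the orbit size. -/
theorem sylow_orbit {H : Type} [Group H] [Finite H] [MulAction H X] {l : ℕ} [Fact l.Prime]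
    (P : Sylow l H) (x : X) {b : ℕ} (h : l ^ b ∣ Nat.card (orbit H x)) :
    l ^ b ∣ Nat.card (orbit (P : Subgroup H) x) := by
  have h1 : Nat.card (orbit H x) = (stabilizer H x).index := by
    rw [index_stabilizer, Nat.card_coe_set_eq]
  have h2 : Nat.card (orbit (P : Subgroup H) x) = (stabilizer H x).relIndex P := by
    rw [Nat.card_coe_set_eq, ← index_stabilizer]
    rfl
  have h3 : (stabilizer H x).relIndex P * (P : Subgroup H).index =
      (P : Subgroup H).relIndex (stabilizer H x) * (stabilizer H x).index := by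
    rw [← Subgroup.inf_relIndex_right, Subgroup.relIndex_mul_index inf_le_right,
      ← Subgroup.inf_relIndex_right (P : Subgroup H), Subgroup.relIndex_mul_index inf_le_right,
      inf_comm]
  rw [h2]
  have hc : Nat.Coprime (l ^ b) (P : Subgroup H).index :=
    Nat.Coprime.pow_left _ ((Nat.Prime.coprime_iff_not_dvd Fact.out).2 P.not_dvd_index)
  refine hc.dvd_of_dvd_mul_right ?_
  rw [h3, ← h1]
  exact Dvd.dvd.mul_left h _

namespace Conj

variable {C : Conj G X}

/-- If an `l`-group covers all lines from one point, every translate of `u` has a half-system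
sum divisible by `l`, as soon as there is a nonzero relation. -/
theorem Rel.dvd_half {u r : X → ℤ} {l : ℕ} [hl : Fact l.Prime] (hu : C.Odd' u) (hr : C.Rel u r)
    (h0 : r ≠ 0) (Q : Subgroup G) (hQ : IsPGroup l Q) (x₀ : X) {Φ : Finset X} (hΦ : C.Half Φ)
    (hcov : ∀ x ∈ Φ, ∃ τ ∈ Q, τ • x₀ = x) (g : G) : (l : ℤ) ∣ ∑ x ∈ Φ, u (g • x) := by
  obtain ⟨s, hs, ⟨y, hy⟩, hfix⟩ := hr.exists_fixed h0 Q hQ
  have hconst : ∀ x ∈ Φ, ((s x : ℤ) : ZMod l) = s x₀ := fun x hx => by
    obtain ⟨τ, hτ, rfl⟩ := hcov x hx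
    exact hfix τ hτ x₀
  have hx₀ : ((s x₀ : ℤ) : ZMod l) ≠ 0 := by
    intro h
    apply hy
    rw [← ZMod.intCast_zmod_eq_zero_iff_dvd]
    by_cases hyΦ : y ∈ Φ
    · rw [hconst y hyΦ, h]
    · have h1 : C.c • y ∈ Φ := by rw [hΦ, C.cc]; exact hyΦ
      have h2 := hconst _ h1
      rw [hs.1, h] at h2
      simpa using h2
  have h1 := congrArg (Int.cast : ℤ → ZMod l) (hs.half hu hΦ g)
  push_cast at h1
  rw [sum_congr rfl (fun x hx => by rw [hconst x hx]), ← mul_sum] at h1
  rw [← ZMod.intCast_zmod_eq_zero_iff_dvd]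
  push_cast
  exact (mul_eq_zero.1 h1).resolve_left hx₀

theorem exists_half_subset (C : Conj G X) (O : Set X) (hO : ∀ x, x ∈ O ∨ C.c • x ∈ O) :
    ∃ Φ, C.Half Φ ∧ ∀ x ∈ Φ, x ∈ O := by
  classical
  obtain ⟨Φ₀, h₀⟩ := C.exists_half
  refine ⟨univ.filter fun x => (x ∈ Φ₀ ∧ x ∈ O) ∨ (C.c • x ∈ Φ₀ ∧ C.c • x ∉ O), fun x => ?_,
    fun x hx => ?_⟩
  · simp only [mem_filter, mem_univ, true_and, C.cc]
    have := h₀ x
    tauto
  · simp only [mem_filter, mem_univ, true_and] at hx
    have := hO x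
    tauto

/-- Prime power number of lines: no nonzero relation if no half-system sum is divisible by `l`. -/
theorem thmS [Finite G] [IsPretransitive G X] {u r : X → ℤ} {l a : ℕ} [hl : Fact l.Prime]
    (hu : C.Odd' u) (hcard : Fintype.card X = 2 * l ^ a)
    (hsum : ∀ Φ, C.Half Φ → ¬ (l : ℤ) ∣ ∑ x ∈ Φ, u x) (hr : C.Rel u r) : r = 0 := by
  classical
  by_contra h0
  obtain ⟨P⟩ : Nonempty (Sylow l G) := inferInstance
  have hpos : 0 < Fintype.card X := by
    rw [hcard]; have := hl.out.pos; positivity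
  obtain ⟨x₀⟩ := Fintype.card_pos_iff.1 hpos
  have horb : Nat.card (orbit G x₀) = 2 * l ^ a := by
    rw [orbit_eq_univ, Nat.card_coe_set_eq, Set.ncard_univ, Nat.card_eq_fintype_card, hcard]
  set O := orbit (P : Subgroup G) x₀ with hOdef
  have hOpos : 0 < O.ncard := (Set.ncard_pos (Set.toFinite _)).2 ⟨x₀, mem_orbit_self _⟩
  have hO : ∀ x, x ∈ O ∨ C.c • x ∈ O := by
    by_cases h2 : l = 2
    · subst h2
      have h1 : 2 ^ (a + 1) ∣ Nat.card O := sylow_orbit P x₀ (by rw [horb, pow_succ'])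
      rw [Nat.card_coe_set_eq] at h1
      have h3 : O = Set.univ := by
        apply Set.eq_of_subset_of_ncard_le (Set.subset_univ _)
        rw [Set.ncard_univ, Nat.card_eq_fintype_card, hcard, ← pow_succ']
        exact Nat.le_of_dvd hOpos h1
      intro x; left; rw [h3]; trivial
    · have h1 : l ^ a ∣ Nat.card O := sylow_orbit P x₀ (by rw [horb]; exact Dvd.intro_left 2 rfl)
      rw [Nat.card_coe_set_eq] at h1
      have hle := Nat.le_of_dvd hOpos h1
      have hdisj : Disjoint O ((fun x => C.c • x) '' O) := by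
        rw [Set.disjoint_left]
        rintro y ⟨σ, rfl⟩ ⟨z, ⟨τ, rfl⟩, hz⟩
        obtain ⟨k, hk⟩ := P.isPGroup' (σ * τ⁻¹)
        have hk' : ((σ : G) * (τ : G)⁻¹) ^ (l ^ k) = 1 := by
          simpa using congrArg Subtype.val hk
        refine C.ne_of_odd ((hl.out.odd_of_ne_two h2).pow) hk' ((τ : G) • x₀) ?_
        rw [mul_smul, inv_smul_smul]
        exact hz.symm
      have hun : O ∪ (fun x => C.c • x) '' O = Set.univ := by
        apply Set.eq_of_subset_of_ncard_le (Set.subset_univ _)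
        rw [Set.ncard_union_eq hdisj, Set.ncard_image_of_injective _ (MulAction.injective C.c),
          Set.ncard_univ, Nat.card_eq_fintype_card, hcard]
        omega
      intro x
      have : x ∈ O ∪ (fun x => C.c • x) '' O := by rw [hun]; trivial
      rcases this with h | ⟨z, hz, rfl⟩
      · exact Or.inl h
      · right; simpa [C.cc] using hz
  obtain ⟨Φ, hΦ, hΦO⟩ := C.exists_half_subset O hO
  have := hr.dvd_half hu h0 P P.isPGroup' x₀ hΦ
    (fun x hx => by obtain ⟨τ, hτ⟩ := hΦO x hx; exact ⟨τ, τ.2, hτ⟩) 1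
  simp only [one_smul] at this
  exact hsum Φ hΦ this

end Conj

end Pool.Agent.Lib.MP_557161_ag
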