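import Mathlib
import Pool.Agent.Lib.MP_557161_ag.Comb

/-!
The Galois group of an irreducible Weil polynomial acting on its roots: complex conjugation,
the decomposition group at `p`, multiplicative relations, and Kronecker's theorem.
-/

set_option linter.unusedSectionVars false
set_option linter.style.haveILetI false

namespace Pool.Agent.Lib.MP_557161_ag

open Finset MulAction Polynomial

theorem exists_field (P : ℚ[X]) :
    ∃ (L : Type) (_ : Field L) (_ : NumberField L), IsSplittingField ℚ L P := by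
  have hc : CharZero P.SplittingField := algebraRat.charZero _
  have h1 : (SplittingField.instAlgebra P : Algebra ℚ P.SplittingField) =
      DivisionRing.toRatAlgebra := Subsingleton.elim _ _
  have h2 : @IsSplittingField ℚ P.SplittingField _ _ DivisionRing.toRatAlgebra P := by
    rw [← h1]; exact IsSplittingField.splittingField P
  exact ⟨P.SplittingField, inferInstance,
    @NumberField.mk _ _ hc (@IsSplittingField.finiteDimensional ℚ P.SplittingField _ _
      DivisionRing.toRatAlgebra P h2), h2⟩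

section

variable {L : Type} [Field L] [NumberField L] (P : ℚ[X]) [IsSplittingField ℚ L P]

include P in
theorem isGalois : IsGalois ℚ L :=
  have := Normal.of_isSplittingField (E := L) P
  IsGalois.mk

theorem pretrans (hP : Irreducible P) : IsPretransitive Gal(L/ℚ) (P.rootSet L) := by
  have := Normal.of_isSplittingField (E := L) P
  refine ⟨fun x y => ?_⟩
  have hx := minpoly.eq_of_irreducible hP (mem_rootSet.mp x.2).2
  have hy := minpoly.eq_of_irreducible hP (mem_rootSet.mp y.2).2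
  obtain ⟨g, hg⟩ := (Normal.minpoly_eq_iff_mem_orbit L).mp (hy.symm.trans hx)
  exact ⟨g, Subtype.ext hg⟩

theorem faithful (γ : Gal(L/ℚ)) (h : ∀ x : P.rootSet L, γ • x = x) : γ = 1 := by
  refine AlgEquiv.ext fun x => (AlgHom.mem_equalizer γ.toAlgHom (1 : Gal(L/ℚ)).toAlgHom x).mp
    ((SetLike.ext_iff.mp ?_ x).mpr Algebra.mem_top)
  rw [eq_top_iff, ← IsSplittingField.adjoin_rootSet L P, Algebra.adjoin_le_iff]
  intro y hy
  exact congrArg Subtype.val (h ⟨y, hy⟩)

theorem card_roots (hP : Irreducible P) : Fintype.card (P.rootSet L) = P.natDegree :=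
  card_rootSet_eq_natDegree hP.separable (IsSplittingField.splits L P)

variable {E : Type} [Field E] [Algebra ℚ E] (φ : L →ₐ[ℚ] E)

/-- The bijection of root sets induced by an embedding of the splitting field. -/
noncomputable def rootEquiv : P.rootSet L ≃ P.rootSet E :=
  Equiv.ofBijective (Set.MapsTo.restrict φ _ _ (rootSet_mapsTo φ)) ⟨
    fun _ _ h => Subtype.ext (φ.injective (congrArg Subtype.val h)), fun y => by
      have hy : (y : E) ∈ φ '' P.rootSet L := by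
        rw [(IsSplittingField.splits L P).image_rootSet φ]; exact y.2
      obtain ⟨x, hx, h⟩ := hy
      exact ⟨⟨x, hx⟩, Subtype.ext h⟩⟩

theorem rootEquiv_apply (x : P.rootSet L) : (rootEquiv P φ x : E) = φ x := rfl

theorem root_mem (x : P.rootSet L) : φ x ∈ P.rootSet E := (rootEquiv P φ x).2

theorem root_surj {y : E} (hy : y ∈ P.rootSet E) : ∃ x : P.rootSet L, φ x = y :=
  ⟨(rootEquiv P φ).symm ⟨y, hy⟩, by
    rw [← rootEquiv_apply, Equiv.apply_symm_apply]⟩

theorem ncard_roots (Q : E → Prop) [DecidablePred fun x : P.rootSet L => Q (φ x)] :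
    {y ∈ P.rootSet E | Q y}.ncard = (univ.filter fun x : P.rootSet L => Q (φ x)).card := by
  rw [← Set.ncard_coe_finset, ← Set.ncard_image_of_injective _
    (f := fun x : P.rootSet L => φ x) (φ.injective.comp Subtype.val_injective)]
  congr 1
  ext y
  simp only [Set.mem_ofPred_eq, coe_filter, mem_univ, true_and, Set.mem_image]
  constructor
  · rintro ⟨hy, h⟩
    obtain ⟨x, rfl⟩ := root_surj P φ hy
    exact ⟨x, h, rfl⟩
  · rintro ⟨x, h, rfl⟩
    exact ⟨root_mem P φ x, h⟩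

include P in
theorem exists_restrict (σ : E ≃ₐ[ℚ] E) : ∃ g : Gal(L/ℚ), ∀ x, φ (g x) = σ (φ x) := by
  have := Normal.of_isSplittingField (E := L) P
  letI : Algebra L E := φ.toRingHom.toAlgebra
  have : IsScalarTower ℚ L E := IsScalarTower.of_algebraMap_eq fun x => (φ.commutes x).symm
  exact ⟨σ.restrictNormal L, fun x => σ.restrictNormal_commutes L x⟩

end

/-- The data attached to an irreducible Weil polynomial. -/
structure Model (p : ℕ) [Fact p.Prime] (P : ℚ[X]) (q : ℚ) (L : Type) [Field L] [NumberField L]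
    where
  j : L →ₐ[ℚ] ℂ
  ι : L →ₐ[ℚ] PadicAlgCl p
  c : Gal(L/ℚ)
  j_c : ∀ x, j (c x) = (starRingEnd ℂ) (j x)
  q_pos : 0 < q
  weil : ∀ z ∈ P.rootSet ℂ, ‖z‖ ^ 2 = q

variable {p : ℕ} [Fact p.Prime] {P : ℚ[X]} {q : ℚ} {L : Type} [Field L] [NumberField L]
  [IsSplittingField ℚ L P]

theorem Model.nonempty (hq : 0 < q) (hW : ∀ z ∈ P.rootSet ℂ, ‖z‖ ^ 2 = q) :
    Nonempty (Model p P q L) := by
  let j : L →ₐ[ℚ] ℂ := IsAlgClosed.lift
  obtain ⟨c, hc⟩ := exists_restrict P j (Complex.conjAe.restrictScalars ℚ)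
  exact ⟨⟨j, IsAlgClosed.lift, c, hc, hq, hW⟩⟩

namespace Model

variable (M : Model p P q L)

theorem mul_c (x : P.rootSet L) : (x : L) * M.c x = q := by
  apply M.j.injective
  have h := M.weil _ (root_mem P M.j x)
  change M.j (x * M.c x) = M.j q
  rw [map_mul, M.j_c, Complex.mul_conj, Complex.normSq_eq_norm_sq, h, map_ratCast]
  simp

include M in
theorem root_ne (x : P.rootSet L) : (x : L) ≠ 0 := by
  intro h
  have := M.mul_c x
  rw [h, zero_mul] at this
  exact M.q_pos.ne (by exact_mod_cast this)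

theorem c_eq (x : P.rootSet L) : M.c x = q / (x : L) := by
  rw [eq_div_iff (M.root_ne x), mul_comm, M.mul_c]

theorem comm (g : Gal(L/ℚ)) (x : P.rootSet L) : g • M.c • x = M.c • g • x := by
  apply Subtype.ext
  change g (M.c x) = M.c ((g • x : P.rootSet L) : L)
  rw [M.c_eq, M.c_eq, map_div₀, map_ratCast]
  rfl

theorem cc (x : P.rootSet L) : M.c • M.c • x = x := by
  apply Subtype.ext
  change M.c ((M.c • x : P.rootSet L) : L) = x
  rw [M.c_eq]
  change q / M.c x = x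
  rw [M.c_eq]
  have := M.root_ne x
  have : (q : L) ≠ 0 := by exact_mod_cast M.q_pos.ne'
  field_simp

theorem all_fixed (hP : Irreducible P) {x : P.rootSet L} (hx : M.c • x = x) (y : P.rootSet L) :
    M.c • y = y := by
  have := pretrans (L := L) P hP
  obtain ⟨g, rfl⟩ := exists_smul_eq Gal(L/ℚ) x y
  rw [← M.comm, hx]

theorem ne_of_degree (hP : Irreducible P) (hd : 2 < P.natDegree) (x : P.rootSet L) :
    M.c • x ≠ x := by
  classical
  intro hx
  have h1 : ∀ y : P.rootSet L, (y : L) * y = q := fun y => by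
    have := M.mul_c y
    rwa [show M.c y = y from congrArg Subtype.val (M.all_fixed hP hx y)] at this
  have h2 : (univ.image fun y : P.rootSet L => (y : L)) ⊆ {(x : L), -(x : L)} := by
    intro z hz
    obtain ⟨y, -, rfl⟩ := mem_image.1 hz
    simp only [mem_insert, mem_singleton]
    exact mul_self_eq_mul_self_iff.1 ((h1 y).trans (h1 x).symm)
  have h3 := card_le_card h2
  rw [card_image_of_injective _ Subtype.val_injective, card_univ, card_roots P hP] at h3
  have := card_le_two (a := (x : L)) (b := -(x : L))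
  omega

/-- Complex conjugation as a free involution of the roots. -/
def conj (hne : ∀ x : P.rootSet L, M.c • x ≠ x) : Conj Gal(L/ℚ) (P.rootSet L) :=
  ⟨M.c, M.comm, M.cc, hne⟩

include M in
theorem norm_q_pos : 0 < ‖(q : PadicAlgCl p)‖ :=
  norm_pos_iff.2 (by exact_mod_cast M.q_pos.ne')

theorem ι_c (x : P.rootSet L) : M.ι (M.c • x : P.rootSet L) = q / M.ι x := by
  change M.ι (M.c x) = _
  rw [M.c_eq, map_div₀, map_ratCast]

theorem j_c' (x : P.rootSet L) : M.j (M.c • x : P.rootSet L) = (starRingEnd ℂ) (M.j x) := M.j_c x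

variable {ρ : ℝ} {u : P.rootSet L → ℤ}

theorem odd_u (hρ : 1 < ρ) (hu : ∀ x : P.rootSet L, ‖M.ι x‖ ^ 2 = ‖(q : PadicAlgCl p)‖ * ρ ^ u x)
    (x : P.rootSet L) : u (M.c • x) = - u x := by
  have h1 := hu (M.c • x)
  have h2 := hu x
  have hq := M.norm_q_pos
  have hx : 0 < ‖M.ι x‖ := norm_pos_iff.2 ((_root_.map_ne_zero _).2 (M.root_ne x))
  rw [M.ι_c, norm_div, div_pow, h2] at h1
  have hρ0 : 0 < ρ := by linarith
  have h3 : ρ ^ (u (M.c • x) + u x) = ρ ^ (0 : ℤ) := by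
    rw [zpow_add₀ hρ0.ne', zpow_zero]
    have : 0 < ρ ^ u x := zpow_pos hρ0 _
    field_simp at h1
    linarith
  have := zpow_right_injective₀ hρ0 hρ.ne' h3
  omega

theorem rel (hne : ∀ x : P.rootSet L, M.c • x ≠ x) (hρ : 1 < ρ)
    (hu : ∀ x : P.rootSet L, ‖M.ι x‖ ^ 2 = ‖(q : PadicAlgCl p)‖ * ρ ^ u x)
    {n : ℂ → ℤ} {N : ℕ} (hN : 0 < N)
    (hrel : (∏ z : P.rootSet ℂ, ((z : ℂ) ^ 2 / q) ^ n z) ^ N = 1) :
    (M.conj hne).Rel u fun x => n (M.j x) - n ((starRingEnd ℂ) (M.j x)) := by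
  have hρ0 : 0 < ρ := by linarith
  have hq := M.norm_q_pos
  have h1 : (∏ x : P.rootSet L, ((x : L) ^ 2 / q) ^ n (M.j x)) ^ N = 1 := by
    apply M.j.injective
    change M.j _ = M.j 1
    rw [map_one, ← hrel, map_pow, map_prod]
    congr 1
    refine Fintype.prod_equiv (rootEquiv P M.j) _ _ fun x => ?_
    rw [map_zpow₀, map_div₀, map_pow, map_ratCast, rootEquiv_apply]
  have h2 : ∀ g : Gal(L/ℚ), ∑ x : P.rootSet L, n (M.j x) * u (g • x) = 0 := fun g => by
    have h3 := congrArg (fun t => ‖M.ι (g t)‖) h1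
    simp only [map_pow, map_prod, map_zpow₀, map_div₀, map_ratCast, map_one, norm_pow, norm_prod,
      norm_zpow, norm_div, norm_one] at h3
    have h4 : ∀ x : P.rootSet L, (‖M.ι (g x)‖ ^ 2 / ‖(q : PadicAlgCl p)‖) ^ n (M.j x) =
        ρ ^ (n (M.j x) * u (g • x)) := fun x => by
      have := hu (g • x)
      change ‖M.ι (g x)‖ ^ 2 = _ at this
      rw [this, mul_div_cancel_left₀ _ hq.ne', ← zpow_mul, mul_comm]
    rw [prod_congr rfl fun x _ => h4 x] at h3
    have h5 : ∀ s : Finset (P.rootSet L), ∏ x ∈ s, ρ ^ (n (M.j x) * u (g • x)) =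
        ρ ^ ∑ x ∈ s, n (M.j x) * u (g • x) := fun s => by
      classical
      induction s using Finset.induction_on with
      | empty => simp
      | insert a s ha ih => rw [prod_insert ha, sum_insert ha, ih, zpow_add₀ hρ0.ne']
    rw [h5, ← zpow_natCast, ← zpow_mul, ← zpow_zero ρ] at h3
    have h6 := zpow_right_injective₀ hρ0 hρ.ne' h3
    exact (mul_eq_zero.1 h6).resolve_right (by omega)
  refine ⟨fun x => ?_, fun g => ?_⟩
  · change n (M.j (M.c • x : P.rootSet L)) - n (starRingEnd ℂ (M.j (M.c • x : P.rootSet L))) = _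
    rw [M.j_c', Complex.conj_conj]; ring
  · simp only [sub_mul, sum_sub_distrib, h2 g, zero_sub, neg_eq_zero]
    have h7 := h2 (g * M.c)
    rw [← h7]
    refine Fintype.sum_equiv (MulAction.toPerm M.c) _ _ fun x => ?_
    simp only [MulAction.toPerm_apply, mul_smul, M.cc, M.j_c']

/-- The decomposition group at the place given by `ι`. -/
def D : Subgroup Gal(L/ℚ) where
  carrier := {g | ∃ σ : Gal(PadicAlgCl p/ℚ_[p]), ∀ x, M.ι (g x) = σ (M.ι x)}
  mul_mem' := by
    rintro a b ⟨σ, hσ⟩ ⟨τ, hτ⟩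
    exact ⟨σ * τ, fun x => by rw [AlgEquiv.mul_apply, AlgEquiv.mul_apply, hσ, hτ]⟩
  one_mem' := ⟨1, fun _ => rfl⟩
  inv_mem' := by
    rintro a ⟨σ, hσ⟩
    refine ⟨σ⁻¹, fun x => ?_⟩
    have := hσ (a⁻¹ x)
    rw [← AlgEquiv.mul_apply, mul_inv_cancel, AlgEquiv.one_apply] at this
    rw [this, ← AlgEquiv.mul_apply, inv_mul_cancel, AlgEquiv.one_apply]

theorem D_norm {d : Gal(L/ℚ)} (hd : d ∈ M.D) (x : L) : ‖M.ι (d x)‖ = ‖M.ι x‖ := by
  obtain ⟨σ, hσ⟩ := hd
  rw [hσ]
  exact (spectralNorm_eq_of_equiv σ _).symm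

theorem D_u (hρ : 1 < ρ) (hu : ∀ x : P.rootSet L, ‖M.ι x‖ ^ 2 = ‖(q : PadicAlgCl p)‖ * ρ ^ u x)
    {d : Gal(L/ℚ)} (hd : d ∈ M.D) (x : P.rootSet L) : u (d • x) = u x := by
  have h1 := hu (d • x)
  change ‖M.ι (d x)‖ ^ 2 = _ at h1
  rw [M.D_norm hd, hu x] at h1
  exact (zpow_right_injective₀ (by linarith) hρ.ne' (mul_left_cancel₀ M.norm_q_pos.ne' h1)).symm

theorem D_iff (x y : P.rootSet L) :
    (∃ d ∈ M.D, d • x = y) ↔ IsConjRoot ℚ_[p] (M.ι y) (M.ι x) := by
  rw [isConjRoot_iff_exists_algEquiv]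
  constructor
  · rintro ⟨d, ⟨σ, hσ⟩, rfl⟩
    exact ⟨σ, (hσ x).symm⟩
  · rintro ⟨σ, hσ⟩
    obtain ⟨g, hg⟩ := exists_restrict P M.ι (σ.restrictScalars ℚ)
    exact ⟨g, ⟨σ, hg⟩, Subtype.ext (M.ι.injective ((hg x).trans hσ))⟩

theorem int_of_norm {b : ℚ} {m : ℕ} {k : ℤ} (h : (p : ℚ) ^ m * b = k) (hb : ‖(b : ℚ_[p])‖ ≤ 1) :
    ∃ n : ℤ, b = n := by
  have hp : (p : ℚ) ≠ 0 := by exact_mod_cast (Fact.out : p.Prime).ne_zero
  have h1 : ‖(k : ℚ_[p])‖ ≤ (p : ℝ) ^ (-m : ℤ) := by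
    have : (k : ℚ_[p]) = (p : ℚ_[p]) ^ m * b := by exact_mod_cast congrArg (Rat.cast : ℚ → ℚ_[p]) h.symm
    rw [this, norm_mul, Padic.norm_p_pow]
    exact mul_le_of_le_one_right (by positivity) hb
  obtain ⟨n, hn⟩ := (Padic.norm_int_le_pow_iff_dvd k m).1 h1
  refine ⟨n, mul_left_cancel₀ (pow_ne_zero m hp) ?_⟩
  rw [h, hn]; push_cast; rfl

/-- Elements integral away from `p` and of norm at most one at the chosen place. -/
def intRing : Subring L where
  carrier := {z | (∃ m : ℕ, IsIntegral ℤ ((p : L) ^ m * z)) ∧ ‖M.ι z‖ ≤ 1}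
  mul_mem' := by
    rintro a b ⟨⟨m, hm⟩, ha⟩ ⟨⟨n, hn⟩, hb⟩
    refine ⟨⟨m + n, ?_⟩, ?_⟩
    · rw [show (p : L) ^ (m + n) * (a * b) = (p ^ m * a) * (p ^ n * b) by ring]
      exact hm.mul hn
    · rw [map_mul, norm_mul]; exact mul_le_one₀ ha (norm_nonneg _) hb
  one_mem' := ⟨⟨0, by simpa using isIntegral_one⟩, by simp⟩
  add_mem' := by
    rintro a b ⟨⟨m, hm⟩, ha⟩ ⟨⟨n, hn⟩, hb⟩
    refine ⟨⟨m + n, ?_⟩, ?_⟩
    · rw [show (p : L) ^ (m + n) * (a + b) = p ^ n * (p ^ m * a) + p ^ m * (p ^ n * b) by ring]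
      exact (((isIntegral_natCast p).pow n).mul hm).add (((isIntegral_natCast p).pow m).mul hn)
    · rw [map_add]
      exact (IsUltrametricDist.norm_add_le_max _ _).trans (max_le ha hb)
  zero_mem' := ⟨⟨0, by simpa using isIntegral_zero⟩, by simp⟩
  neg_mem' := by
    rintro a ⟨⟨m, hm⟩, ha⟩
    exact ⟨⟨m, by rw [mul_neg]; exact hm.neg⟩, by rwa [map_neg, norm_neg]⟩

theorem isIntegral_of {t : L} (ht : ∀ g : Gal(L/ℚ), g t ∈ M.intRing) : IsIntegral ℤ t := by
  have := isGalois (L := L) P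
  have := Fintype.ofFinite Gal(L/ℚ)
  let F : L[X] := ∏ g : Gal(L/ℚ), (X - C (g t))
  have hmon : F.Monic := monic_prod_of_monic _ _ fun g _ => monic_X_sub_C _
  have hA : ∀ i, F.coeff i ∈ M.intRing := fun i => by
    have : F = (∏ g : Gal(L/ℚ), (X - C (⟨g t, ht g⟩ : M.intRing))).map M.intRing.subtype := by
      simp [F, Polynomial.map_prod]
    rw [this, coeff_map]
    exact SetLike.coe_mem _
  have hfix : ∀ (i : ℕ) (g : Gal(L/ℚ)), g (F.coeff i) = F.coeff i := fun i g => by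
    have : F.map (g : L →+* L) = F := by
      simp only [F, Polynomial.map_prod, Polynomial.map_sub, map_X, map_C]
      exact Fintype.prod_equiv (Equiv.mulLeft g) _ _ fun h => rfl
    conv_rhs => rw [← this, coeff_map]
    rfl
  have hl : F ∈ lifts (algebraMap ℤ L) := by
    rw [lifts_iff_coeff_lifts]
    intro i
    obtain ⟨b, hb⟩ := (IsGalois.mem_range_algebraMap_iff_fixed (F := ℚ) (F.coeff i)).2 (hfix i)
    obtain ⟨⟨m, hm⟩, hn⟩ := hA i
    rw [← hb] at hm hn ⊢
    have h1 : IsIntegral ℤ ((p : ℚ) ^ m * b) := by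
      rw [← isIntegral_algebraMap_iff (B := L) (algebraMap ℚ L).injective]
      simpa using hm
    obtain ⟨k, hk⟩ := IsIntegrallyClosed.isIntegral_iff.1 h1
    have h2 : ‖(b : ℚ_[p])‖ ≤ 1 := by
      rw [← PadicAlgCl.norm_extends]
      simpa using hn
    obtain ⟨n, rfl⟩ := int_of_norm (k := k) (by simpa using hk.symm) h2
    exact ⟨n, by simp⟩
  obtain ⟨Q, hQ, -, hQm⟩ := lifts_and_natDegree_eq_and_monic hl hmon
  refine ⟨Q, hQm, ?_⟩
  rw [eval₂_eq_eval_map, hQ]
  simp only [F, eval_prod, eval_sub, eval_X, eval_C]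
  exact prod_eq_zero (mem_univ 1) (by simp)

/-- Roots with the same valuations at all places above `p` differ by a root of unity. -/
theorem kronecker {a : ℕ} (hq : q = (p : ℚ) ^ a)
    (hint : ∀ z ∈ P.rootSet ℂ, ∃ m : ℕ, IsIntegral ℤ ((p : ℂ) ^ m * z)) {x y : P.rootSet L}
    (h : ∀ g : Gal(L/ℚ), ‖M.ι (g x)‖ = ‖M.ι (g y)‖) :
    ∃ N : ℕ, 0 < N ∧ M.j x ^ N = M.j y ^ N := by
  have hintL : ∀ z : P.rootSet L, ∃ m : ℕ, IsIntegral ℤ ((p : L) ^ m * z) := fun z => by
    obtain ⟨m, hm⟩ := hint _ (root_mem P M.j z)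
    refine ⟨m, (isIntegral_algHom_iff M.j.toRingHom.toIntAlgHom M.j.injective).1 ?_⟩
    simpa using hm
  have hp : (p : L) ≠ 0 := by exact_mod_cast (Fact.out : p.Prime).ne_zero
  have hI : IsIntegral ℤ ((x : L) / y) := by
    refine M.isIntegral_of fun g => ⟨?_, ?_⟩
    · obtain ⟨m, hm⟩ := hintL (g • x)
      obtain ⟨n, hn⟩ := hintL (M.c • g • y)
      refine ⟨m + n + a, ?_⟩
      have h1 : ((M.c • g • y : P.rootSet L) : L) = q / g y := M.c_eq (g • y)
      have h2 : g y ≠ 0 := M.root_ne (g • y)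
      have h3 : (p : L) ^ (m + n + a) * g (x / y) =
          (p ^ m * (g • x : P.rootSet L)) * (p ^ n * (M.c • g • y : P.rootSet L)) := by
        rw [h1, hq, map_div₀]
        change _ = (p : L) ^ m * g x * _
        push_cast
        field_simp
        ring
      rw [h3]; exact hm.mul hn
    · rw [map_div₀, map_div₀, norm_div, h]
      exact div_self_le_one _
  obtain ⟨N, hN, h1⟩ := NumberField.Embeddings.pow_eq_one_of_norm_eq_one L ℂ hI fun ψ => by
    have h2 := M.weil _ (root_mem P ψ.toRatAlgHom x)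
    have h3 := M.weil _ (root_mem P ψ.toRatAlgHom y)
    have h4 : ‖ψ x‖ = ‖ψ y‖ := (pow_left_inj₀ (norm_nonneg _) (norm_nonneg _) two_ne_zero).1
      (h2.trans h3.symm)
    rw [map_div₀, norm_div, h4, div_self]
    exact norm_ne_zero_iff.2 ((_root_.map_ne_zero _).2 (M.root_ne y))
  refine ⟨N, hN, ?_⟩
  rw [div_pow, div_eq_one_iff_eq (pow_ne_zero _ (M.root_ne y))] at h1
  rw [← map_pow, ← map_pow, h1]

theorem sep (hu : ∀ x : P.rootSet L, ‖M.ι x‖ ^ 2 = ‖(q : PadicAlgCl p)‖ * ρ ^ u x)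
    {a : ℕ} (hq : q = (p : ℚ) ^ a)
    (hint : ∀ z ∈ P.rootSet ℂ, ∃ m : ℕ, IsIntegral ℤ ((p : ℂ) ^ m * z))
    (hs : ∀ z ∈ P.rootSet ℂ, ∀ w ∈ P.rootSet ℂ, ∀ N : ℕ, 0 < N → z ^ N = w ^ N → z = w)
    (x y : P.rootSet L) (h : ∀ g : Gal(L/ℚ), u (g • x) = u (g • y)) : x = y := by
  obtain ⟨N, hN, h1⟩ := M.kronecker hq hint (x := x) (y := y) fun g => by
    have h2 := hu (g • x)
    rw [h, ← hu (g • y)] at h2
    exact (pow_left_inj₀ (norm_nonneg _) (norm_nonneg _) two_ne_zero).1 h2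
  exact Subtype.ext (M.j.injective (hs _ (root_mem P M.j x) _ (root_mem P M.j y) N hN h1))

end Model

end Pool.Agent.Lib.MP_557161_ag
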