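import Mathlib

/-!
Zeta functions attached to a sequence of point counts, point counts of powers of an abelian
variety in terms of its Frobenius polynomial, and conjugation-paired sets of eigenvalues.
-/

namespace Pool.Agent.Lib.MP_557161_ag

open Polynomial

/-- `f` is meromorphic on `ℂ` and equals `exp (∑ c m * Q ^ (-m s) / m)` in a right half plane. -/
def IsZeta (c : ℕ → ℂ) (Q : ℝ) (f : ℂ → ℂ) : Prop :=
  Meromorphic f ∧ ∃ σ : ℝ, ∀ s : ℂ, σ < s.re → ∃ t : ℂ,
    HasSum (fun m : ℕ => c (m + 1) * (Q : ℂ) ^ (-(((m + 1 : ℕ) : ℂ) * s)) / ((m + 1 : ℕ) : ℂ)) t ∧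
      f s = Complex.exp t

/-- The product of `1 - z ^ m` over the complex roots `z` of `P`, to the power `k`. -/
noncomputable def pointCount (P : ℚ[X]) (k m : ℕ) : ℂ :=
  (∏ z : P.rootSet ℂ, (1 - (z : ℂ) ^ m)) ^ k

/-- The number of `2 j`-element sets of eigenvalues (each root of `P` taken `k` times) that
contain every root as often as its complex conjugate. -/
noncomputable def pairedSubsets (P : ℚ[X]) (k j : ℕ) : ℕ :=
  {S : Set (P.rootSet ℂ × Fin k) | S.ncard = 2 * j ∧
    ∀ z w : P.rootSet ℂ, (w : ℂ) = (starRingEnd ℂ) z →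
      {i | (w, i) ∈ S}.ncard = {i | (z, i) ∈ S}.ncard}.ncard

end Pool.Agent.Lib.MP_557161_ag
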