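import Mathlib
import Pool.Agent.Lib.MP_557161_ag.Defs

/-!
The order of the zeta function at an integer counts sets of eigenvalues with product `Q ^ j`.
-/

namespace Pool.Agent.Lib.MP_557161_ag

open Finset Polynomial Complex

theorem factor_analytic (a : ℂ) {Q : ℝ} (hQ : 1 < Q) (s : ℂ) :
    AnalyticAt ℂ (fun s : ℂ => 1 - a * (Q : ℂ) ^ (-s)) s := by
  have hQ0 : (Q : ℂ) ≠ 0 := by exact_mod_cast (by linarith : Q ≠ 0)
  refine Differentiable.analyticAt ?_ s
  exact (differentiable_const _).sub ((differentiable_const _).mul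
    (differentiable_id.neg.const_cpow (Or.inl hQ0)))

theorem factor_order (a : ℂ) {Q : ℝ} (hQ : 1 < Q) (j : ℕ) :
    meromorphicOrderAt (fun s : ℂ => 1 - a * (Q : ℂ) ^ (-s)) j =
      ((if a = (Q : ℂ) ^ j then 1 else 0 : ℤ) : WithTop ℤ) := by
  have hQ0 : (Q : ℂ) ≠ 0 := by exact_mod_cast (by linarith : Q ≠ 0)
  have han := factor_analytic a hQ j
  have hval : (Q : ℂ) ^ (-(j : ℂ)) = ((Q : ℂ) ^ j)⁻¹ := by rw [cpow_neg, cpow_natCast]
  rw [han.meromorphicOrderAt_eq]
  split_ifs with h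
  · rw [han.analyticOrderAt_eq_one_of_zero_deriv_ne_zero]
    · rfl
    · simp only [hval, h, mul_inv_cancel₀ (pow_ne_zero j hQ0), sub_self]
    · have h1 : HasDerivAt (fun s : ℂ => 1 - a * (Q : ℂ) ^ (-s))
          (-(a * ((Q : ℂ) ^ (-(j : ℂ)) * log Q * (-1)))) j :=
        (((hasDerivAt_neg (j : ℂ)).const_cpow (Or.inl hQ0)).const_mul a).const_sub 1
      rw [h1.deriv, hval, h]
      have h2 : log (Q : ℂ) ≠ 0 := by
        rw [← ofReal_log (by linarith)]
        exact_mod_cast (Real.log_pos hQ).ne'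
      have := pow_ne_zero j hQ0
      simp [h2, hQ0]
  · rw [han.analyticOrderAt_eq_zero.2]
    · rfl
    · simp only [hval]
      intro h1
      apply h
      have := pow_ne_zero j hQ0
      field_simp at h1
      linear_combination -h1

theorem norm_prod_sq {E : Type} (α : E → ℂ) {Q : ℝ} (hα : ∀ e, ‖α e‖ ^ 2 = Q) (S : Finset E) :
    ‖∏ e ∈ S, α e‖ ^ 2 = Q ^ S.card := by
  rw [norm_prod, ← prod_pow, prod_congr rfl fun e _ => hα e, prod_const]

theorem card_of_prod {E : Type} (α : E → ℂ) {Q : ℝ} (hQ : 1 < Q) (hα : ∀ e, ‖α e‖ ^ 2 = Q)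
    {S : Finset E} {j : ℕ} (h : ∏ e ∈ S, α e = (Q : ℂ) ^ j) : S.card = 2 * j := by
  have h1 := norm_prod_sq α hα S
  rw [h, norm_pow, norm_real, Real.norm_of_nonneg (by linarith), ← pow_mul] at h1
  have := pow_right_injective₀ (by linarith) hQ.ne' h1
  omega

theorem zeta_order {E : Type} [Fintype E] [DecidableEq E] (α : E → ℂ) {Q : ℝ} (hQ : 1 < Q)
    (hα : ∀ e, ‖α e‖ ^ 2 = Q) :
    ∃ f, IsZeta (fun m => ∏ e, (1 - α e ^ m)) Q f ∧ ∀ j : ℕ, meromorphicOrderAt f j =
      ((-((univ.filter fun S : Finset E => ∏ e ∈ S, α e = (Q : ℂ) ^ j).card : ℤ) : ℤ) :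
        WithTop ℤ) := by
  have hQ0 : (Q : ℂ) ≠ 0 := by exact_mod_cast (by linarith : Q ≠ 0)
  let F : Finset E → ℂ → ℂ := fun S s => 1 - (∏ e ∈ S, α e) * (Q : ℂ) ^ (-s)
  have hF : ∀ S s, MeromorphicAt (F S) s := fun S s => (factor_analytic _ hQ s).meromorphicAt
  refine ⟨∏ S : Finset E, F S ^ (-(-1 : ℤ) ^ S.card), ⟨fun s => MeromorphicAt.prod fun S _ =>
    (hF S s).zpow _, Fintype.card E, fun s hs => ?_⟩, fun j => ?_⟩
  · let w : Finset E → ℂ := fun S => (∏ e ∈ S, α e) * (Q : ℂ) ^ (-s)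
    have hw : ∀ S, ‖w S‖ < 1 := fun S => by
      have h1 := norm_prod_sq α hα S
      have h2 : ‖∏ e ∈ S, α e‖ ≤ Q ^ (Fintype.card E : ℝ) := by
        rw [Real.rpow_natCast]
        refine (pow_le_pow_iff_left₀ (norm_nonneg _) (by positivity) two_ne_zero).1 ?_
        rw [h1, ← pow_mul]
        exact pow_le_pow_right₀ hQ.le (by have := card_le_univ S; omega)
      simp only [w]
      rw [norm_mul, norm_cpow_eq_rpow_re_of_pos (by linarith), neg_re]
      calc _ ≤ Q ^ (Fintype.card E : ℝ) * Q ^ (-s.re) := by gcongr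
        _ = Q ^ ((Fintype.card E : ℝ) + -s.re) := (Real.rpow_add (by linarith) _ _).symm
        _ < 1 := Real.rpow_lt_one_of_one_lt_of_neg hQ (by linarith)
    have hS : ∀ S : Finset E, HasSum (fun m : ℕ => (-1 : ℂ) ^ S.card * (w S ^ (m + 1) /
        ((m + 1 : ℕ) : ℂ))) ((-1 : ℂ) ^ S.card * (-log (1 - w S))) := fun S => by
      refine HasSum.mul_left _ ?_
      have := (hasSum_nat_add_iff' 1).2 (hasSum_taylorSeries_neg_log (hw S))
      simpa using this
    refine ⟨∑ S : Finset E, (-1 : ℂ) ^ S.card * (-log (1 - w S)), ?_, ?_⟩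
    · have h1 := hasSum_sum (s := (univ : Finset (Finset E))) fun S _ => hS S
      have h2 : ∀ m : ℕ, (∏ e, (1 - α e ^ (m + 1))) * (Q : ℂ) ^ (-(((m + 1 : ℕ) : ℂ) * s)) /
          ((m + 1 : ℕ) : ℂ) = ∑ S : Finset E, (-1 : ℂ) ^ S.card * (w S ^ (m + 1) /
            ((m + 1 : ℕ) : ℂ)) := fun m => by
        simp only [sub_eq_add_neg]
        rw [prod_one_add, powerset_univ, sum_mul, sum_div]
        refine sum_congr rfl fun S _ => ?_
        rw [prod_neg, prod_pow, ← mul_neg, cpow_nat_mul]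
        simp only [w, mul_pow]
        ring
      simp only [h2]
      exact h1
    · rw [exp_sum, Finset.prod_apply]
      refine prod_congr rfl fun S _ => ?_
      have h1 : 1 - w S ≠ 0 := fun h => by
        have h2 := hw S
        rw [← sub_eq_zero.1 h, norm_one] at h2
        exact lt_irrefl _ h2
      have h3 : (-1 : ℂ) ^ S.card * (-log (1 - w S)) =
          ((-(-1 : ℤ) ^ S.card : ℤ) : ℂ) * log (1 - w S) := by push_cast; ring
      rw [h3, exp_int_mul, exp_log h1]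
      rfl
  · rw [meromorphicOrderAt_prod fun S _ => (hF S _).zpow _]
    have h1 : ∀ S : Finset E, meromorphicOrderAt (F S ^ (-(-1 : ℤ) ^ S.card)) j =
        ((if ∏ e ∈ S, α e = (Q : ℂ) ^ j then -1 else 0 : ℤ) : WithTop ℤ) := fun S => by
      rw [meromorphicOrderAt_zpow (hF S _), factor_order _ hQ, ← WithTop.coe_mul]
      congr 1
      split_ifs with h
      · rw [card_of_prod α hQ hα h, pow_mul]; simp
      · simp
    rw [sum_congr rfl fun S _ => h1 S, ← WithTop.coe_sum, ← sum_filter]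
    simp

theorem zeta_of_rel (P : ℚ[X]) {q : ℚ} (hq : 1 < q) (hW : ∀ z ∈ P.rootSet ℂ, ‖z‖ ^ 2 = q)
    (hconj : ∀ z ∈ P.rootSet ℂ, (starRingEnd ℂ) z ∈ P.rootSet ℂ ∧ (starRingEnd ℂ) z ≠ z)
    (k : ℕ) {N : ℕ} (hN : 0 < N) :
    ∃ f, IsZeta (fun m => pointCount P k (N * m)) ((q : ℝ) ^ N) f ∧ ∀ j : ℕ,
      (∀ n : ℂ → ℕ, ∑ z : P.rootSet ℂ, n z = 2 * j →
        (∏ z : P.rootSet ℂ, ((z : ℂ) ^ 2 / q) ^ (n z : ℤ)) ^ N = 1 →
          ∀ z ∈ P.rootSet ℂ, n ((starRingEnd ℂ) z) = n z) →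
      meromorphicOrderAt f j = ((-(pairedSubsets P k j : ℤ) : ℤ) : WithTop ℤ) := by
  classical
  have hq' : (1 : ℝ) < q := by exact_mod_cast hq
  have hQ : 1 < (q : ℝ) ^ N := one_lt_pow₀ hq' hN.ne'
  let α : P.rootSet ℂ × Fin k → ℂ := fun e => (e.1 : ℂ) ^ N
  have hα : ∀ e, ‖α e‖ ^ 2 = (q : ℝ) ^ N := fun e => by
    simp only [α]
    rw [norm_pow, ← pow_mul, mul_comm, pow_mul, hW _ e.1.2]
  obtain ⟨f, hf, ho⟩ := zeta_order α hQ hα
  refine ⟨f, ?_, fun j hj => ?_⟩
  · have : (fun m => pointCount P k (N * m)) = fun m => ∏ e, (1 - α e ^ m) := by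
      funext m
      simp only [pointCount, α, Fintype.prod_prod_type, prod_const, card_univ, Fintype.card_fin,
        prod_pow, pow_mul]
    rwa [this]
  rw [ho]
  congr 3
  let n : Finset (P.rootSet ℂ × Fin k) → ℂ → ℕ := fun S z => (S.filter fun e => (e.1 : ℂ) = z).card
  have hn : ∀ (S : Finset (P.rootSet ℂ × Fin k)) (z : P.rootSet ℂ),
      {i | (z, i) ∈ (S : Set (P.rootSet ℂ × Fin k))}.ncard = n S z := fun S z => by
    rw [← Set.ncard_image_of_injective _ (f := fun i => (z, i)) (Prod.mk_right_injective z)]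
    refine Eq.trans ?_ (Set.ncard_coe_finset _)
    congr 1
    ext ⟨w, i⟩
    simp only [Set.mem_image, Set.mem_ofPred_eq, mem_coe, Prod.mk.injEq, coe_filter]
    constructor
    · rintro ⟨i', h, rfl, rfl⟩; exact ⟨h, rfl⟩
    · rintro ⟨h, h'⟩
      obtain rfl : w = z := Subtype.ext h'
      exact ⟨i, h, rfl, rfl⟩
  have hfib : ∀ (S : Finset (P.rootSet ℂ × Fin k)) (z : P.rootSet ℂ),
      n S z = (S.filter fun e => e.1 = z).card := fun S z => by
    simp only [n, Subtype.val_inj]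
  have hprod : ∀ (S : Finset (P.rootSet ℂ × Fin k)) (g : ℂ → ℂ),
      ∏ e ∈ S, g e.1 = ∏ z : P.rootSet ℂ, g z ^ n S z := fun S g => by
    rw [← prod_fiberwise S Prod.fst]
    refine prod_congr rfl fun z _ => ?_
    rw [hfib, ← prod_const]
    exact prod_congr rfl fun e he => by rw [(mem_filter.1 he).2]
  have hsum : ∀ S : Finset (P.rootSet ℂ × Fin k), ∑ z : P.rootSet ℂ, n S z = S.card := fun S => by
    rw [card_eq_sum_card_fiberwise (f := Prod.fst) (t := univ) fun _ _ => mem_univ _]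
    exact sum_congr rfl fun z _ => hfib S z
  have hq0 : (q : ℂ) ≠ 0 := by exact_mod_cast (by linarith : q ≠ 0)
  rw [pairedSubsets, ← Set.ncard_coe_finset, ← Set.ncard_image_of_injective _ coe_injective]
  congr 1
  ext T
  obtain ⟨S, rfl⟩ := (Set.toFinite T).exists_finset_coe
  simp only [Set.mem_image, coe_filter, mem_univ, true_and, Set.mem_ofPred_eq, Finset.coe_inj,
    exists_eq_right, Set.ncard_coe_finset, hn]
  constructor
  · intro h
    have hc := card_of_prod α hQ hα h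
    refine ⟨hc, fun z w hw => ?_⟩
    rw [hw]
    refine hj (n S) (by rw [hsum, hc]) ?_ z z.2
    simp only [zpow_natCast]
    rw [← hprod S fun z => z ^ 2 / q, prod_div_distrib, prod_const, div_pow, ← prod_pow, hc]
    have h2 : ∏ e ∈ S, ((e.1 : ℂ) ^ 2) ^ N = (∏ e ∈ S, α e) ^ 2 := by
      rw [← prod_pow]
      exact prod_congr rfl fun e _ => by simp only [α]; ring
    rw [h2, h]
    push_cast
    rw [div_eq_one_iff_eq (by positivity)]
    ring
  · rintro ⟨hc, h⟩
    have hr : ((√q : ℝ) : ℂ) ≠ 0 := by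
      exact_mod_cast (Real.sqrt_pos.2 (by linarith)).ne'
    have hr2 : ((√q : ℝ) : ℂ) ^ 2 = q := by
      exact_mod_cast Real.sq_sqrt (by linarith : (0 : ℝ) ≤ q)
    have h1 : ∏ z : P.rootSet ℂ, ((z : ℂ) / (√q : ℝ)) ^ n S z = 1 := by
      refine prod_involution (fun z _ => ⟨_, (hconj z z.2).1⟩) (fun z _ => ?_)
        (fun z _ _ h => (hconj z z.2).2 (congrArg Subtype.val h)) (fun _ _ => mem_univ _)
        (fun z _ => Subtype.ext (conj_conj _))
      rw [h z ⟨_, (hconj z z.2).1⟩ rfl, ← mul_pow, div_mul_div_comm, mul_conj, normSq_eq_norm_sq,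
        hW _ z.2, ← pow_two, hr2]
      simp [hq0]
    rw [← hprod S fun z => z / (√q : ℝ), prod_div_distrib, prod_const, hc, pow_mul, hr2,
      div_eq_one_iff_eq (pow_ne_zero _ hq0)] at h1
    simp only [α]
    rw [prod_pow, h1]
    push_cast
    ring

end Pool.Agent.Lib.MP_557161_ag
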