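import Mathlib
import Pool.Agent.Lib.MP_557161_ag.Galois
import Pool.Agent.Lib.MP_557161_ag.Zeta

/-!
Transfer lemmas between the splitting field and the complex and `p`-adic roots.
-/

set_option linter.unusedSectionVars false

namespace Pool.Agent.Lib.MP_557161_ag

open Finset MulAction Polynomial

variable {p : ℕ} [Fact p.Prime] {P : ℚ[X]} {q : ℚ} {L : Type} [Field L] [NumberField L]
  [IsSplittingField ℚ L P]

namespace Model

variable (M : Model p P q L)

theorem conj_root (hne : ∀ x : P.rootSet L, M.c • x ≠ x) :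
    ∀ z ∈ P.rootSet ℂ, (starRingEnd ℂ) z ∈ P.rootSet ℂ ∧ (starRingEnd ℂ) z ≠ z := by
  intro z hz
  obtain ⟨x, rfl⟩ := root_surj P M.j hz
  rw [← M.j_c']
  exact ⟨root_mem P M.j _, fun h => hne x (Subtype.ext (M.j.injective h))⟩

theorem symm_of_zero {n : ℂ → ℤ}
    (h : (fun x : P.rootSet L => n (M.j x) - n ((starRingEnd ℂ) (M.j x))) = 0) :
    ∀ z ∈ P.rootSet ℂ, n ((starRingEnd ℂ) z) = n z := by
  intro z hz
  obtain ⟨x, rfl⟩ := root_surj P M.j hz
  exact (sub_eq_zero.1 (congrFun h x)).symm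

theorem sum_natAbs_le (n : ℂ → ℕ) :
    ∑ x : P.rootSet L, ((n (M.j x) : ℤ) - n ((starRingEnd ℂ) (M.j x))).natAbs ≤
      2 * ∑ z : P.rootSet ℂ, n z := by
  have h1 : ∑ x : P.rootSet L, n (M.j x) = ∑ z : P.rootSet ℂ, n z :=
    Fintype.sum_equiv (rootEquiv P M.j) _ _ fun x => rfl
  have h2 : ∑ x : P.rootSet L, n ((starRingEnd ℂ) (M.j x)) = ∑ x : P.rootSet L, n (M.j x) :=
    Fintype.sum_equiv (MulAction.toPerm M.c) _ _ fun x => by
      rw [MulAction.toPerm_apply, M.j_c']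
  calc _ ≤ ∑ x : P.rootSet L, (n (M.j x) + n ((starRingEnd ℂ) (M.j x))) :=
        sum_le_sum fun x _ => by omega
    _ = _ := by rw [sum_add_distrib, h2, h1, two_mul]

theorem half_image (hne : ∀ x : P.rootSet L, M.c • x ≠ x) (u : PadicAlgCl p → ℤ)
    {Φ : Finset (P.rootSet L)} (hΦ : (M.conj hne).Half Φ) :
    ∃ Ψ : Finset (PadicAlgCl p), (∀ x ∈ Ψ, x ∈ P.rootSet (PadicAlgCl p)) ∧
      (∀ x ∈ P.rootSet (PadicAlgCl p), x ∈ Ψ ↔ (q : PadicAlgCl p) / x ∉ Ψ) ∧
      ∑ x ∈ Ψ, u x = ∑ x ∈ Φ, u (M.ι x) := by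
  let e : P.rootSet L ↪ PadicAlgCl p :=
    ⟨fun x => M.ι x, M.ι.injective.comp Subtype.val_injective⟩
  refine ⟨Φ.map e, fun x hx => ?_, fun x hx => ?_, sum_map _ _ _⟩
  · obtain ⟨y, -, rfl⟩ := mem_map.1 hx
    exact root_mem P M.ι y
  · obtain ⟨y, rfl⟩ := root_surj P M.ι hx
    rw [← M.ι_c]
    change e y ∈ _ ↔ e (M.c • y) ∉ _
    rw [mem_map', mem_map']
    exact hΦ y

theorem card_orbit_D (hP : P ≠ 0) {H : ℚ_[p][X]} (hH : Irreducible H)
    (hHP : H ∣ P.map (algebraMap ℚ ℚ_[p])) :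
    ∃ x : P.rootSet L, Nat.card (orbit M.D x) = H.natDegree := by
  have hsub : ∀ y ∈ H.rootSet (PadicAlgCl p), y ∈ P.rootSet (PadicAlgCl p) := fun y hy => by
    rw [mem_rootSet_of_ne hP, ← aeval_map_algebraMap ℚ_[p]]
    exact aeval_eq_zero_of_dvd_aeval_eq_zero hHP (aeval_eq_zero_of_mem_rootSet hy)
  obtain ⟨y₀, hy₀⟩ := IsAlgClosed.exists_aeval_eq_zero (PadicAlgCl p) H
    (degree_pos_of_irreducible hH).ne'
  obtain ⟨x, rfl⟩ := root_surj P M.ι (hsub y₀ ((mem_rootSet_of_ne hH.ne_zero).2 hy₀))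
  refine ⟨x, ?_⟩
  have hmin := minpoly.eq_of_irreducible hH hy₀
  have key : (fun y : P.rootSet L => M.ι y) '' orbit M.D x = H.rootSet (PadicAlgCl p) := by
    ext z
    constructor
    · rintro ⟨_, ⟨d, rfl⟩, rfl⟩
      have := (M.D_iff x _).1 ⟨d, d.2, rfl⟩
      rw [mem_rootSet_of_ne hH.ne_zero]
      refine aeval_eq_zero_of_dvd_aeval_eq_zero (minpoly.dvd ℚ_[p] _ hy₀) ?_
      exact this.symm.aeval_eq_zero
    · intro hz
      obtain ⟨y, rfl⟩ := root_surj P M.ι (hsub z hz)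
      have h1 := minpoly.eq_of_irreducible hH (aeval_eq_zero_of_mem_rootSet hz)
      obtain ⟨d, hd, rfl⟩ := (M.D_iff x y).2 (h1.symm.trans hmin)
      exact ⟨_, ⟨⟨d, hd⟩, rfl⟩, rfl⟩
  rw [Nat.card_coe_set_eq, ← Set.ncard_image_of_injective _
    (f := fun y : P.rootSet L => M.ι y) (M.ι.injective.comp Subtype.val_injective), key,
    ← Nat.card_coe_set_eq, Nat.card_eq_fintype_card]
  exact card_rootSet_eq_natDegree hH.separable (IsAlgClosed.splits _)

end Model

/-- A subgroup containing the stabiliser of a root is the stabiliser of a polynomial in it. -/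
theorem exists_poly (x : P.rootSet L) (S : Subgroup Gal(L/ℚ))
    (hS : ∀ γ : Gal(L/ℚ), γ • x = x → γ ∈ S) :
    ∃ F : ℚ[X], ∀ γ : Gal(L/ℚ), aeval (γ x) F = aeval (x : L) F ↔ γ ∈ S := by
  have := isGalois (L := L) P
  obtain ⟨θ, hθ⟩ := Field.exists_primitive_element ℚ (IntermediateField.fixedField S)
  have h1 : IntermediateField.adjoin ℚ {(θ : L)} = IntermediateField.fixedField S := by
    have h0 := congrArg IntermediateField.lift hθ
    exact (IntermediateField.lift_adjoin_simple ℚ _ θ).symm.trans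
      (h0.trans (IntermediateField.lift_top ℚ _))
  have h2 : (θ : L) ∈ IntermediateField.adjoin ℚ {(x : L)} := by
    rw [← IsGalois.fixedField_fixingSubgroup (IntermediateField.adjoin ℚ {(x : L)}),
      IntermediateField.mem_fixedField_iff]
    intro γ hγ
    refine (IntermediateField.mem_fixedField_iff S _).1 θ.2 γ (hS γ (Subtype.ext ?_))
    exact (IntermediateField.mem_fixingSubgroup_iff _ _).1 hγ _
      (IntermediateField.mem_adjoin_simple_self ℚ _)
  have h3 : (θ : L) ∈ Algebra.adjoin ℚ {(x : L)} := by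
    rw [← IntermediateField.adjoin_simple_toSubalgebra_of_isAlgebraic
      (Algebra.IsAlgebraic.isAlgebraic _)]
    exact h2
  rw [Algebra.adjoin_singleton_eq_range_aeval] at h3
  obtain ⟨F, hF⟩ := h3
  change aeval (x : L) F = θ at hF
  refine ⟨F, fun γ => ?_⟩
  rw [aeval_algHom_apply, hF]
  constructor
  · intro h
    rw [← IntermediateField.fixingSubgroup_fixedField S, ← h1,
      IntermediateField.mem_fixingSubgroup_iff]
    intro y hy
    have h4 : IntermediateField.adjoin ℚ {(θ : L)} ≤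
        IntermediateField.fixedField (Subgroup.zpowers γ) := by
      rw [IntermediateField.adjoin_simple_le_iff, IntermediateField.mem_fixedField_iff]
      intro δ hδ
      exact (Subgroup.zpowers_le (H := stabilizer Gal(L/ℚ) (θ : L))).2 h hδ
    exact (IntermediateField.mem_fixedField_iff _ _).1 (h4 hy) γ (Subgroup.mem_zpowers γ)
  · intro h
    exact (IntermediateField.mem_fixedField_iff S _).1 θ.2 γ h

end Pool.Agent.Lib.MP_557161_ag
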