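import Mathlib
import Pool.Agent.Lib.MP_557161_ag.Comb

/-!
An element acting as a single pair of `l`-cycles fixes every relation.
-/

set_option linter.unusedSectionVars false

namespace Pool.Agent.Lib.MP_557161_ag

open Finset MulAction

/-- Vanishing cyclic correlation of prime length forces one vector to be constant. -/
theorem conv_const {n : ℕ} (hl : (n + 1).Prime) (a b : Fin (n + 1) → ℤ)
    (h : ∀ j, ∑ i, a i * b (i + j) = 0) : (∀ i j, a i = a j) ∨ (∀ i j, b i = b j) := by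
  have hζ := Complex.isPrimitiveRoot_exp (n + 1) hl.ne_zero
  set ζ := Complex.exp (2 * Real.pi * Complex.I / (n + 1 : ℕ)) with hζdef
  have hne : ζ ≠ 0 := hζ.ne_zero hl.ne_zero
  have hadd : ∀ i j : Fin (n + 1), ζ ^ (i + j).val = ζ ^ i.val * ζ ^ j.val := fun i j => by
    rw [Fin.val_add, ← pow_add]
    conv_rhs => rw [← Nat.mod_add_div (i.val + j.val) (n + 1), pow_add, pow_mul, hζ.pow_eq_one]
    simp
  have key : (∑ i, (a i : ℂ) * ζ⁻¹ ^ i.val) * (∑ m, (b m : ℂ) * ζ ^ m.val) = 0 := by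
    rw [sum_mul]
    have : ∀ i : Fin (n + 1), (a i : ℂ) * ζ⁻¹ ^ i.val * (∑ m, (b m : ℂ) * ζ ^ m.val) =
        ∑ j, (a i : ℂ) * b (i + j) * ζ ^ j.val := fun i => by
      rw [← Equiv.sum_comp (Equiv.addLeft i), mul_sum]
      refine sum_congr rfl fun j _ => ?_
      simp only [Equiv.coe_addLeft, hadd, inv_pow]
      have : ζ ^ i.val ≠ 0 := pow_ne_zero _ hne
      field_simp
    rw [sum_congr rfl fun i _ => this i, sum_comm]
    refine sum_eq_zero fun j _ => ?_
    rw [← sum_mul]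
    have := congrArg (Int.cast : ℤ → ℂ) (h j)
    push_cast at this
    rw [this, zero_mul]
  rcases mul_eq_zero.1 key with h1 | h1
  · exact Or.inl ((hζ.inv.sum_eq_zero_iff_forall_eq_int hl a).1 h1)
  · exact Or.inr ((hζ.sum_eq_zero_iff_forall_eq_int hl b).1 h1)

variable {G X : Type} [Group G] [MulAction G X] [Fintype X] [DecidableEq X]

namespace Conj

variable (C : Conj G X)

/-- The cycle of `x` under `τ` together with its conjugate. -/
def cyc (τ : G) (l : ℕ) (x : X) : Fin l ⊕ Fin l → X :=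
  Sum.elim (fun i => τ ^ i.val • x) fun i => C.c • τ ^ i.val • x

theorem pow_smul_inj {τ : G} {l : ℕ} (hl : l.Prime) (hτ : τ ^ l = 1) {x : X} (hx : τ • x ≠ x)
    {i j : Fin l} (h : τ ^ i.val • x = τ ^ j.val • x) : i = j := by
  have hper : period τ x = l := by
    have h1 : period τ x ∣ l := pow_smul_eq_iff_period_dvd.1 (by rw [hτ, one_smul])
    rcases (Nat.dvd_prime hl).1 h1 with h2 | h2
    · exact absurd (period_eq_one_iff.1 h2) hx
    · exact h2
  wlog hij : i ≤ j generalizing i j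
  · exact (this h.symm (le_of_not_ge hij)).symm
  obtain ⟨d, hd⟩ := Nat.exists_eq_add_of_le (show i.val ≤ j.val from hij)
  rw [hd, pow_add, mul_smul] at h
  have h2 : τ ^ d • x = x := (MulAction.injective _ h).symm
  have h3 := pow_smul_eq_iff_period_dvd.1 h2
  rw [hper] at h3
  have : d = 0 := Nat.eq_zero_of_dvd_of_lt h3 (by omega)
  exact Fin.ext (by omega)

theorem cyc_inj {τ : G} {l : ℕ} (hl : l.Prime) (ho : Odd l) (hτ : τ ^ l = 1) {x : X}
    (hx : τ • x ≠ x) : Function.Injective (C.cyc τ l x) := by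
  have hne : ∀ i j : Fin l, τ ^ i.val • x ≠ C.c • τ ^ j.val • x := fun i j h => by
    have h1 : (τ ^ i.val * (τ ^ j.val)⁻¹) ^ l = 1 := by
      rw [Commute.mul_pow ((Commute.pow_pow_self τ _ _).inv_right), inv_pow, ← pow_mul,
        ← pow_mul, mul_comm i.val, mul_comm j.val, pow_mul, pow_mul, hτ]
      simp
    refine C.ne_of_odd ho h1 (τ ^ j.val • x) ?_
    rw [mul_smul, inv_smul_smul]; exact h
  rintro (i | i) (j | j) h
  · rw [pow_smul_inj hl hτ hx h]
  · exact absurd h (hne i j)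
  · exact absurd h.symm (hne j i)
  · rw [pow_smul_inj hl hτ hx (MulAction.injective _ h)]

theorem pow_mod_smul {τ : G} {l : ℕ} (hτ : τ ^ l = 1) (m : ℕ) : τ ^ (m % l) = τ ^ m := by
  conv_rhs => rw [← Nat.mod_add_div m l, pow_add, pow_mul, hτ]
  simp

variable {C}

/-- A single pair of cycles of prime length fixes all relations. -/
theorem Rel.inv_of_cycle {u r : X → ℤ} (hu : C.Odd' u) (hr : C.Rel u r) {τ : G} {l : ℕ}
    (hl : l.Prime) (ho : Odd l) (hτ : τ ^ l = 1) {x₀ : X} (hx : τ • x₀ ≠ x₀)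
    (hmov : ∀ x, τ • x ≠ x → x ∈ Set.range (C.cyc τ l x₀))
    (hsep : ∀ x y : X, (∀ g : G, u (g • x) = u (g • y)) → x = y) (x : X) :
    r (τ • x) = r x := by
  obtain ⟨n, rfl⟩ : ∃ n, l = n + 1 := ⟨l - 1, by have := hl.pos; omega⟩
  have hs : C.Rel u ((fun x => r (τ • x)) - r) := (hr.smul τ).sub hr
  set s := (fun x => r (τ • x)) - r with hsdef
  have hs0 : ∀ x, x ∉ Set.range (C.cyc τ (n + 1) x₀) → s x = 0 := fun x hx => by
    have : τ • x = x := by by_contra h; exact hx (hmov x h)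
    simp [hsdef, this]
  have hadd : ∀ i j : Fin (n + 1), τ ^ (i + j).val = τ ^ j.val * τ ^ i.val := fun i j => by
    rw [Fin.val_add, pow_mod_smul hτ, ← pow_add, add_comm]
  obtain ⟨g, hg⟩ : ∃ g : G, u (g • τ • x₀) ≠ u (g • x₀) := by
    by_contra h
    push Not at h
    exact hx (hsep _ _ h)
  have hconv : ∀ j : Fin (n + 1),
      ∑ i : Fin (n + 1), s (τ ^ i.val • x₀) * u (g • τ ^ (i + j).val • x₀) = 0 := fun j => by
    have h1 := hs.2 (g * τ ^ j.val)
    rw [← Fintype.sum_of_injective _ (C.cyc_inj hl ho hτ hx)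
      (fun z => s (C.cyc τ (n + 1) x₀ z) * u ((g * τ ^ j.val) • C.cyc τ (n + 1) x₀ z)) _
      (fun x hx => by rw [hs0 x hx, zero_mul]) (fun _ => rfl), Fintype.sum_sum_type] at h1
    simp only [cyc, Sum.elim_inl, Sum.elim_inr] at h1
    have h2 : ∀ i : Fin (n + 1), s (C.c • τ ^ i.val • x₀) * u ((g * τ ^ j.val) • C.c • τ ^ i.val • x₀)
        = s (τ ^ i.val • x₀) * u ((g * τ ^ j.val) • τ ^ i.val • x₀) := fun i => by
      rw [C.comm, hs.1, hu]; ring
    rw [sum_congr rfl fun i _ => h2 i] at h1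
    have h3 : ∑ i : Fin (n + 1), s (τ ^ i.val • x₀) * u ((g * τ ^ j.val) • τ ^ i.val • x₀) = 0 := by
      linarith
    rw [← h3]
    refine sum_congr rfl fun i _ => ?_
    rw [hadd, mul_smul, mul_smul]
  have h1lt : 1 < n + 1 := hl.one_lt
  rcases conv_const hl (fun i => s (τ ^ i.val • x₀)) (fun i => u (g • τ ^ i.val • x₀)) hconv
    with h | h
  · have hsum : ∑ i : Fin (n + 1), s (τ ^ i.val • x₀) = 0 := by
      simp only [hsdef, Pi.sub_apply, sum_sub_distrib]
      rw [sub_eq_zero, ← Equiv.sum_comp (Equiv.addRight (⟨1, h1lt⟩ : Fin (n + 1)))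
        (fun i : Fin (n + 1) => r (τ ^ i.val • x₀))]
      refine sum_congr rfl fun i _ => ?_
      simp only [Equiv.coe_addRight, hadd, pow_one, mul_smul]
    have hz : ∀ i : Fin (n + 1), s (τ ^ i.val • x₀) = 0 := fun i => by
      rw [sum_congr rfl fun j _ => h j i] at hsum
      simp only [sum_const, card_univ, Fintype.card_fin, nsmul_eq_mul, mul_eq_zero] at hsum
      exact hsum.resolve_left (by positivity)
    have : s x = 0 := by
      by_cases hx : x ∈ Set.range (C.cyc τ (n + 1) x₀)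
      · obtain ⟨i | i, rfl⟩ := hx
        · exact hz i
        · show s (C.c • τ ^ i.val • x₀) = 0
          rw [hs.1, hz, neg_zero]
      · exact hs0 x hx
    simpa [hsdef, sub_eq_zero] using this
  · exfalso
    apply hg
    simpa using h ⟨1, h1lt⟩ 0

theorem cyc_closed (C : Conj G X) {τ : G} {l : ℕ} (hl : 0 < l) (hτ : τ ^ l = 1) {x y : X} {k : ℕ}
    (h : τ ^ k • y ∈ Set.range (C.cyc τ l x) ∨ C.c • τ ^ k • y ∈ Set.range (C.cyc τ l x)) :
    y ∈ Set.range (C.cyc τ l x) := by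
  have hinv : τ ^ ((l - 1) * k) * τ ^ k = 1 := by
    rw [← pow_add, show (l - 1) * k + k = l * k by
      obtain ⟨m, rfl⟩ : ∃ m, l = m + 1 := ⟨l - 1, by omega⟩
      simp [add_mul], pow_mul, hτ, one_pow]
  have hy : y = τ ^ ((l - 1) * k) • τ ^ k • y := by rw [← mul_smul, hinv, one_smul]
  have h1 : ∀ (m : ℕ) (z : X), z ∈ Set.range (C.cyc τ l x) → τ ^ m • z ∈ Set.range (C.cyc τ l x) := by
    rintro m z ⟨i | i, rfl⟩
    · refine ⟨Sum.inl ⟨(m + i.val) % l, Nat.mod_lt _ hl⟩, ?_⟩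
      simp only [cyc, Sum.elim_inl, pow_mod_smul hτ, pow_add, mul_smul]
    · refine ⟨Sum.inr ⟨(m + i.val) % l, Nat.mod_lt _ hl⟩, ?_⟩
      simp only [cyc, Sum.elim_inr, pow_mod_smul hτ, pow_add, mul_smul, C.comm]
  have h2 : ∀ z : X, C.c • z ∈ Set.range (C.cyc τ l x) → z ∈ Set.range (C.cyc τ l x) := by
    rintro z ⟨i | i, hi⟩
    · refine ⟨Sum.inr i, ?_⟩
      simp only [cyc, Sum.elim_inl, Sum.elim_inr] at hi ⊢
      rw [hi, C.cc]
    · refine ⟨Sum.inl i, ?_⟩
      simp only [cyc, Sum.elim_inl, Sum.elim_inr] at hi ⊢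
      exact MulAction.injective _ hi
  rw [hy]
  rcases h with h | h
  · exact h1 _ _ h
  · exact h1 _ _ (h2 _ h)

/-- Small level sets of `|u|` force an element fixing `u` to be a single pair of cycles. -/
theorem moved_of_card {u : X → ℤ} (hu : C.Odd' u) {τ : G} {l : ℕ} (hl : l.Prime) (ho : Odd l)
    (hτ : τ ^ l = 1) (hτu : ∀ x, u (τ • x) = u x) {x₀ : X} (hx : τ • x₀ ≠ x₀) (t : ℤ)
    (hcard : ∀ x, (univ.filter fun y => |u y| = |u x|).card < if |u x| = t then 4 * l else 2 * l)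
    (x : X) (hmx : τ • x ≠ x) : x ∈ Set.range (C.cyc τ l x₀) := by
  have hpow : ∀ (k : ℕ) (y : X), u (τ ^ k • y) = u y := fun k y => by
    induction k with
    | zero => simp
    | succ k ih => rw [pow_succ', mul_smul, hτu, ih]
  have hsub : ∀ y : X, univ.image (C.cyc τ l y) ⊆ univ.filter fun z => |u z| = |u y| := by
    intro y z hz
    obtain ⟨i | i, -, rfl⟩ := mem_image.1 hz
    · simp [cyc, hpow]
    · simp [cyc, hu _, hpow]
  have hc : ∀ y : X, τ • y ≠ y → (univ.image (C.cyc τ l y)).card = 2 * l := fun y hy => by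
    rw [card_image_of_injective _ (C.cyc_inj hl ho hτ hy)]
    simp [two_mul]
  have ht : ∀ y : X, τ • y ≠ y → |u y| = t := fun y hy => by
    by_contra h
    have h1 := hcard y
    rw [if_neg h] at h1
    have := card_le_card (hsub y)
    rw [hc y hy] at this
    omega
  by_contra hcon
  have hdisj : Disjoint (univ.image (C.cyc τ l x)) (univ.image (C.cyc τ l x₀)) := by
    rw [disjoint_left]
    intro z hz hz0
    apply hcon
    have hz0' : z ∈ Set.range (C.cyc τ l x₀) := by simpa using hz0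
    obtain ⟨i | i, -, rfl⟩ := mem_image.1 hz
    · exact C.cyc_closed hl.pos hτ (Or.inl hz0')
    · exact C.cyc_closed hl.pos hτ (Or.inr hz0')
  have h1 := hcard x₀
  rw [if_pos (ht x₀ hx)] at h1
  have h2 : univ.image (C.cyc τ l x) ∪ univ.image (C.cyc τ l x₀) ⊆
      univ.filter fun z => |u z| = |u x₀| := by
    refine union_subset ?_ (hsub x₀)
    have := hsub x
    rwa [ht x hmx, ← ht x₀ hx] at this
  have := card_le_card h2
  rw [card_union_of_disjoint hdisj, hc x hmx, hc x₀ hx] at this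
  omega

end Conj

end Pool.Agent.Lib.MP_557161_ag
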