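import Mathlib
import Pool.Agent.Lib.MP_557161_ag.Comb

/-!
Parity arguments: weights with one or two lines of even value.
-/

set_option linter.unusedSectionVars false

namespace Pool.Agent.Lib.MP_557161_ag

open Finset MulAction

variable {G X : Type} [Group G] [MulAction G X] [Fintype X] [DecidableEq X]

namespace Conj

variable {C : Conj G X}

theorem Rel.par {u s : X → ℤ} (hu : C.Odd' u) (hs : C.Rel u s) {Φ : Finset X} (hΦ : C.Half Φ)
    (g : G) : ∑ x ∈ Φ, ((s x : ℤ) : ZMod 2) =
      ∑ x ∈ Φ.filter (fun x => Even (u (g • x))), ((s x : ℤ) : ZMod 2) := by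
  have h1 := congrArg (Int.cast : ℤ → ZMod 2) (hs.half hu hΦ g)
  push_cast at h1
  rw [sum_filter, ← sub_eq_zero, ← sum_sub_distrib]
  refine Eq.trans (sum_congr rfl fun x _ => ?_) h1
  split_ifs with h
  · rw [(ZMod.intCast_eq_zero_iff_even).2 h]; simp
  · rw [(ZMod.intCast_eq_one_iff_odd).2 (Int.not_even_iff_odd.1 h)]; simp

theorem Odd'.cast_c {s : X → ℤ} (hs : C.Odd' s) (x : X) :
    ((s (C.c • x) : ℤ) : ZMod 2) = s x := by
  rw [hs]; push_cast; exact ZMod.neg_eq_self_mod_two _

/-- The representative of the line of `y` in a half system. -/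
def rep (C : Conj G X) (Φ : Finset X) (y : X) : X := if y ∈ Φ then y else C.c • y

theorem rep_mem {Φ : Finset X} (hΦ : C.Half Φ) (y : X) : C.rep Φ y ∈ Φ := by
  unfold rep; split_ifs with h
  · exact h
  · rw [hΦ, C.cc]; exact h

theorem rep_cases (Φ : Finset X) (y : X) : C.rep Φ y = y ∨ C.rep Φ y = C.c • y := by
  unfold rep; split_ifs <;> simp

theorem eq_rep {Φ : Finset X} (hΦ : C.Half Φ) {x y : X} (hx : x ∈ Φ) (h : x = y ∨ x = C.c • y) :
    x = C.rep Φ y := by
  unfold rep
  rcases h with rfl | rfl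
  · rw [if_pos hx]
  · rw [if_neg]; intro hy; exact (hΦ y).1 hy hx

theorem Odd'.cast_rep {s : X → ℤ} (hs : C.Odd' s) (Φ : Finset X) (y : X) :
    ((s (C.rep Φ y) : ℤ) : ZMod 2) = s y := by
  rcases C.rep_cases Φ y with h | h <;> rw [h]
  exact hs.cast_c y

theorem smul_eq_c_iff (C : Conj G X) (g : G) (x z : X) : g • x = C.c • z ↔ x = C.c • g⁻¹ • z := by
  rw [← C.comm, eq_inv_smul_iff]

/-- One line of even weight and an even number of lines: no nonzero relation. -/
theorem thmLZ [IsPretransitive G X] {u r : X → ℤ} (hu : C.Odd' u) {g : ℕ}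
    (hX : Fintype.card X = 2 * g) (hg : Even g) {z : X}
    (hz : ∀ x, Even (u x) ↔ x = z ∨ x = C.c • z) (hr : C.Rel u r) : r = 0 := by
  by_contra h0
  obtain ⟨s, hs, ⟨y, hy⟩, -⟩ := Rel.exists_prim (l := 2) le_rfl _ r le_rfl hr h0
  obtain ⟨Φ, hΦ⟩ := C.exists_half
  have key : ∀ x : X, ((s x : ℤ) : ZMod 2) = ∑ x ∈ Φ, ((s x : ℤ) : ZMod 2) := fun x => by
    obtain ⟨γ, rfl⟩ := exists_smul_eq G z x
    rw [hs.par hu hΦ γ⁻¹]
    have : Φ.filter (fun x => Even (u (γ⁻¹ • x))) = {C.rep Φ (γ • z)} := by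
      ext x
      simp only [mem_filter, hz, mem_singleton, C.smul_eq_c_iff, inv_inv, inv_smul_eq_iff]
      constructor
      · rintro ⟨h1, h2⟩; exact eq_rep hΦ h1 h2
      · rintro rfl; exact ⟨rep_mem hΦ _, rep_cases _ _⟩
    rw [this, sum_singleton, hs.1.cast_rep]
  have hΦc : Φ.card = g := by have := C.card_half hΦ; omega
  have h2 : ∑ x ∈ Φ, ((s x : ℤ) : ZMod 2) = 0 := by
    rw [sum_congr rfl fun x _ => key x, sum_const, hΦc, nsmul_eq_mul,
      (ZMod.natCast_eq_zero_iff_even).2 hg, zero_mul]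
  apply hy
  exact_mod_cast (ZMod.intCast_zmod_eq_zero_iff_dvd _ 2).1 ((key y).trans h2)

theorem card_stable (C : Conj G X) {Φ : Finset X} (hΦ : C.Half Φ) (O : Finset X)
    (hO : ∀ x, C.c • x ∈ O ↔ x ∈ O) : O.card = 2 * (Φ.filter (· ∈ O)).card := by
  have := C.sum_half hΦ (fun x => if x ∈ O then (1 : ℕ) else 0)
  simp only [hO, sum_boole, Nat.cast_id] at this
  rw [two_mul, ← this]
  congr 1; ext; simp

theorem avg [Fintype G] [IsPretransitive G X] (f : X → ℕ) (a : X) :
    Fintype.card X * ∑ γ : G, f (γ • a) = Fintype.card G * ∑ x, f x := by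
  have h1 : ∀ b : X, ∑ γ : G, f (γ • b) = ∑ γ : G, f (γ • a) := fun b => by
    obtain ⟨δ, rfl⟩ := exists_smul_eq G a b
    rw [← Equiv.sum_comp (Equiv.mulRight δ) (fun γ => f (γ • a))]
    simp [mul_smul]
  have h2 : ∑ b : X, ∑ γ : G, f (γ • b) = Fintype.card X * ∑ γ : G, f (γ • a) := by
    simp [h1]
  rw [← h2, sum_comm]
  have h3 : ∀ γ : G, ∑ b : X, f (γ • b) = ∑ x, f x := fun γ =>
    Fintype.sum_equiv (MulAction.toPerm γ) _ _ fun x => rfl
  simp [h3]

theorem dvd_card_of_classes (E : X → X → Prop) [DecidableRel E] (hE : Equivalence E) {K : ℕ}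
    (hK : ∀ x, (univ.filter (E x)).card = K) (O : Finset X) (hO : ∀ x y, x ∈ O → E x y → y ∈ O) :
    K ∣ O.card := by
  rw [card_eq_sum_card_fiberwise (f := fun x => univ.filter (E x))
    (t := O.image fun x => univ.filter (E x)) (fun x hx => mem_image_of_mem _ hx)]
  refine dvd_sum fun t ht => ?_
  obtain ⟨y, hy, rfl⟩ := mem_image.1 ht
  have : O.filter (fun x => univ.filter (E x) = univ.filter (E y)) = univ.filter (E y) := by
    ext x
    simp only [mem_filter, mem_univ, true_and]
    constructor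
    · rintro ⟨-, h⟩
      have : x ∈ univ.filter (E x) := by simp [hE.refl]
      rw [h] at this; simpa using this
    · intro h
      refine ⟨hO y x hy h, ?_⟩
      ext w
      simp only [mem_filter, mem_univ, true_and]
      exact ⟨fun h' => hE.trans h h', fun h' => hE.trans (hE.symm h) h'⟩
  rw [this, hK]

/-- Two lines of even weight and an odd number of lines: nonzero relations are long. -/
theorem thmTwo [Finite G] [IsPretransitive G X] {u r : X → ℤ} (hu : C.Odd' u) {g : ℕ}
    (hX : Fintype.card X = 2 * g) (hg : Odd g)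
    (h4 : (univ.filter fun x => Even (u x)).card = 4) (hr : C.Rel u r) (h0 : r ≠ 0) :
    ∃ k, k ∣ g ∧ 3 ≤ k ∧ 3 * k ≤ g ∧ 4 * k ≤ ∑ x, (r x).natAbs := by
  classical
  have := Fintype.ofFinite G
  have hZ : ∀ x, Even (u (C.c • x)) ↔ Even (u x) := fun x => by rw [hu, even_neg]
  obtain ⟨a, ha⟩ : (univ.filter fun x => Even (u x)).Nonempty := by
    rw [← card_pos]; omega
  obtain ⟨b, hb, hb'⟩ : ∃ b ∈ univ.filter fun x => Even (u x), b ∉ ({a, C.c • a} : Finset X) := by
    apply exists_mem_notMem_of_card_lt_card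
    have := card_le_two (a := a) (b := C.c • a)
    omega
  simp only [mem_insert, mem_singleton, not_or] at hb'
  have hcb : C.c • b ≠ a := fun h => hb'.2 (by rw [← h, C.cc])
  have hcb' : C.c • b ≠ C.c • a := fun h => hb'.1 (MulAction.injective _ h)
  have hcard4 : ({a, C.c • a, b, C.c • b} : Finset X).card = 4 := by
    rw [card_insert_of_notMem, card_insert_of_notMem, card_pair (C.ne b).symm]
    · simp only [mem_insert, mem_singleton, not_or]
      exact ⟨fun h => hb'.2 h.symm, fun h => hcb' h.symm⟩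
    · simp only [mem_insert, mem_singleton, not_or]
      exact ⟨(C.ne a).symm, fun h => hb'.1 h.symm, fun h => hcb h.symm⟩
  have hz : ∀ x, Even (u x) ↔ (x = a ∨ x = C.c • a) ∨ (x = b ∨ x = C.c • b) := by
    have : ({a, C.c • a, b, C.c • b} : Finset X) = univ.filter fun x => Even (u x) := by
      apply eq_of_subset_of_card_le _ (by omega)
      intro x hx
      simp only [mem_filter, mem_univ, true_and] at ha hb ⊢
      simp only [mem_insert, mem_singleton] at hx
      rcases hx with rfl | rfl | rfl | rfl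
      · exact ha
      · exact (hZ _).2 ha
      · exact hb
      · exact (hZ _).2 hb
    intro x
    have h2 : x ∈ ({a, C.c • a, b, C.c • b} : Finset X) ↔ x ∈ univ.filter fun x => Even (u x) := by
      rw [this]
    simp only [mem_insert, mem_singleton, mem_filter, mem_univ, true_and] at h2
    rw [← h2, or_assoc]
  obtain ⟨Φ, hΦ⟩ := C.exists_half
  have key : ∀ s, C.Rel u s → ∀ γ : G, ((s (γ • a) : ℤ) : ZMod 2) + s (γ • b) =
      ∑ x ∈ Φ, ((s x : ℤ) : ZMod 2) := fun s hs γ => by
    rw [hs.par hu hΦ γ⁻¹]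
    have : Φ.filter (fun x => Even (u (γ⁻¹ • x))) = {C.rep Φ (γ • a), C.rep Φ (γ • b)} := by
      ext x
      simp only [mem_filter, hz, mem_insert, mem_singleton, C.smul_eq_c_iff, inv_inv,
        inv_smul_eq_iff]
      constructor
      · rintro ⟨h1, h2 | h2⟩
        · exact Or.inl (eq_rep hΦ h1 h2)
        · exact Or.inr (eq_rep hΦ h1 h2)
      · rintro (rfl | rfl)
        · exact ⟨rep_mem hΦ _, Or.inl (rep_cases _ _)⟩
        · exact ⟨rep_mem hΦ _, Or.inr (rep_cases _ _)⟩
    rw [this, sum_pair, hs.1.cast_rep, hs.1.cast_rep]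
    intro h
    rcases C.rep_cases Φ (γ • a) with h1 | h1 <;> rcases C.rep_cases Φ (γ • b) with h2 | h2 <;>
      rw [h1, h2] at h
    · exact hb'.1 (MulAction.injective _ h).symm
    · rw [← C.comm] at h; exact hcb (MulAction.injective _ h).symm
    · rw [← C.comm] at h; exact hb'.2 (MulAction.injective _ h).symm
    · exact hb'.1 (MulAction.injective _ (MulAction.injective _ h)).symm
  let O : (X → ℤ) → Finset X := fun s => univ.filter fun x => ((s x : ℤ) : ZMod 2) = 1
  have h01 : ∀ t : ZMod 2, t = 0 ∨ t = 1 := by decide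
  have hOc : ∀ s, C.Rel u s → (O s).card = 2 * (Φ.filter (· ∈ O s)).card := fun s hs =>
    C.card_stable hΦ _ fun x => by simp [O, hs.1.cast_c]
  have hsig : ∀ s : X → ℤ, ∑ x ∈ Φ, ((s x : ℤ) : ZMod 2) = ((Φ.filter (· ∈ O s)).card : ZMod 2) :=
    fun s => by
      rw [card_filter]; push_cast
      refine sum_congr rfl fun x _ => ?_
      rcases h01 (s x) with h | h <;> simp [O, h]
  have hzero : ∀ s, C.Rel u s → ∑ x ∈ Φ, ((s x : ℤ) : ZMod 2) = 0 := fun s hs => by
    rcases h01 (∑ x ∈ Φ, ((s x : ℤ) : ZMod 2)) with h | h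
    · exact h
    exfalso
    let f : X → ℕ := fun x => if x ∈ O s then 1 else 0
    have hf : ∑ x, f x = (O s).card := by simp [f]
    have h1 := avg (G := G) f a
    have h2 := avg (G := G) f b
    have h3 : ∑ γ : G, f (γ • a) + ∑ γ : G, f (γ • b) = Fintype.card G := by
      rw [← sum_add_distrib, ← card_univ, card_eq_sum_ones]
      refine sum_congr rfl fun γ _ => ?_
      have := key s hs γ
      rw [h] at this
      rcases h01 (s (γ • a)) with h4 | h4 <;> rcases h01 (s (γ • b)) with h5 | h5 <;>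
        simp_all [f, O]
    have hG : 0 < Fintype.card G := Fintype.card_pos
    rw [hf, hX] at h1 h2
    have h6 : Fintype.card G * g = Fintype.card G * (O s).card := by nlinarith
    have h7 := Nat.eq_of_mul_eq_mul_left hG h6
    rw [hOc s hs] at h7
    obtain ⟨m, hm⟩ := hg
    omega
  let E : X → X → Prop := fun x y => ∀ s, C.Rel u s → ((s x : ℤ) : ZMod 2) = s y
  have hE : Equivalence E :=
    ⟨fun x s _ => rfl, fun h s hs => (h s hs).symm, fun h h' s hs => (h s hs).trans (h' s hs)⟩
  have hEK : ∀ x, (univ.filter (E x)).card = (univ.filter (E a)).card := fun x => by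
    obtain ⟨γ, rfl⟩ := exists_smul_eq G a x
    symm
    refine card_bij (fun y _ => γ • y) ?_ ?_ ?_
    · intro y hy
      simp only [mem_filter, mem_univ, true_and] at hy ⊢
      exact fun s hs => hy _ (hs.smul γ)
    · intro y _ w _ h; exact MulAction.injective _ h
    · intro y hy
      simp only [mem_filter, mem_univ, true_and] at hy
      refine ⟨γ⁻¹ • y, ?_, by simp⟩
      simp only [mem_filter, mem_univ, true_and]
      intro s hs
      simpa using hy _ (hs.smul γ⁻¹)
  have hab : E a b := fun s hs => by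
    have := key s hs 1
    rw [hzero s hs, one_smul, one_smul] at this
    rw [eq_neg_of_add_eq_zero_left this, ZMod.neg_eq_self_mod_two]
  have hEc : ∀ x, E a (C.c • x) ↔ E a x := fun x =>
    ⟨fun h s hs => (h s hs).trans (hs.1.cast_c x), fun h s hs => (h s hs).trans (hs.1.cast_c x).symm⟩
  have hK4 : 4 ≤ (univ.filter (E a)).card := by
    rw [← hcard4]
    apply card_le_card
    intro x hx
    simp only [mem_insert, mem_singleton] at hx
    simp only [mem_filter, mem_univ, true_and]
    rcases hx with rfl | rfl | rfl | rfl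
    · exact hE.refl _
    · exact (hEc _).2 (hE.refl _)
    · exact hab
    · exact (hEc _).2 hab
  have hK2 := C.card_stable hΦ (univ.filter (E a)) fun x => by simp [hEc]
  set k := (Φ.filter (· ∈ univ.filter (E a))).card with hk
  have hkg : 2 * k ∣ 2 * g := by
    rw [← hK2, ← hX]
    exact dvd_card_of_classes E hE hEK univ fun _ _ _ _ => mem_univ _
  have hkg' : k ∣ g := Nat.dvd_of_mul_dvd_mul_left two_pos hkg
  obtain ⟨s, hs, ⟨y, hy⟩, hle⟩ := Rel.exists_prim (l := 2) le_rfl _ r le_rfl hr h0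
  have hkO : 2 * k ∣ (O s).card := by
    rw [← hK2]
    refine dvd_card_of_classes E hE hEK _ fun x y hx hxy => ?_
    simp only [O, mem_filter, mem_univ, true_and] at hx ⊢
    rw [← hxy s hs, hx]
  have hOpos : 0 < (O s).card := by
    refine card_pos.2 ⟨y, ?_⟩
    simp only [O, mem_filter, mem_univ, true_and]
    refine (h01 _).resolve_left fun h => hy ?_
    exact_mod_cast (ZMod.intCast_zmod_eq_zero_iff_dvd _ 2).1 h
  have hev : Even (Φ.filter (· ∈ O s)).card := by
    rw [← ZMod.natCast_eq_zero_iff_even, ← hsig, hzero s hs]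
  have hOle : (O s).card ≤ 2 * g := by rw [← hX]; exact card_le_univ _
  have hOr : (O s).card ≤ ∑ x, (r x).natAbs := by
    calc (O s).card = ∑ x ∈ O s, 1 := card_eq_sum_ones _
      _ ≤ ∑ x ∈ O s, (r x).natAbs := by
        refine sum_le_sum fun x hx => le_trans ?_ (hle x)
        simp only [O, mem_filter, mem_univ, true_and] at hx
        refine Int.natAbs_pos.2 fun h => ?_
        rw [h] at hx; simp at hx
      _ ≤ ∑ x, (r x).natAbs := sum_le_sum_of_subset (subset_univ _)
  obtain ⟨m, hm⟩ := hkg'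
  obtain ⟨j, hj⟩ := hkO
  rw [hOc s hs] at hj hOpos hOle hOr
  have hj' : (Φ.filter (· ∈ O s)).card = k * j := by nlinarith
  rw [hj'] at hev hOpos hOle hOr
  have hodd : Odd k ∧ Odd m := by rw [hm] at hg; exact Nat.odd_mul.1 hg
  have hjev : Even j := (Nat.even_mul.1 hev).resolve_left (Nat.not_even_iff_odd.2 hodd.1)
  have hj0 : j ≠ 0 := by rintro rfl; simp at hOpos
  have hk0 : 0 < k := by omega
  have hjm : j ≤ m := by
    rw [hm] at hOle
    exact Nat.le_of_mul_le_mul_left (by omega : k * j ≤ k * m) hk0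
  obtain ⟨j', rfl⟩ := hjev
  obtain ⟨⟨k', hk'⟩, ⟨m', hm'⟩⟩ := hodd
  refine ⟨k, ⟨m, hm⟩, by omega, ?_, ?_⟩
  · rw [hm]; nlinarith [show 3 ≤ m by omega]
  · nlinarith [show 1 ≤ j' by omega]

end Conj

end Pool.Agent.Lib.MP_557161_ag
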