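import Mathlib
import Pool.Agent.Lib.MP_557161_ag.Cycle
import Pool.Agent.Lib.MP_557161_ag.Parity

/-!
Weights with values in `{0, 1, -1}` whose positive part is one orbit of a group fixing the weight.
-/

set_option linter.unusedSectionVars false

namespace Pool.Agent.Lib.MP_557161_ag

open Finset MulAction

variable {G X : Type} [Group G] [MulAction G X] [Fintype X] [DecidableEq X]

namespace Conj

variable {C : Conj G X}

theorem half_abs {u : X → ℤ} (hu : C.Odd' u) (h01 : ∀ x, u x = 0 ∨ u x = 1 ∨ u x = -1)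
    {Φ : Finset X} (hΦ : C.Half Φ) :
    ∑ x ∈ Φ, |u x| = (univ.filter fun x => u x = 1).card := by
  rw [card_filter]
  push_cast
  rw [C.sum_half hΦ, ← sum_add_distrib]
  refine sum_congr rfl fun x _ => ?_
  rw [hu]
  rcases h01 x with h | h | h <;> simp [h]

theorem half_odd {u : X → ℤ} (hu : C.Odd' u) (h01 : ∀ x, u x = 0 ∨ u x = 1 ∨ u x = -1)
    (hodd : Odd (univ.filter fun x => u x = 1).card) {Φ : Finset X} (hΦ : C.Half Φ) :
    Odd (∑ x ∈ Φ, u x) := by
  have h1 := half_abs hu h01 hΦ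
  have h2 : (2 : ℤ) ∣ ∑ x ∈ Φ, |u x| - ∑ x ∈ Φ, u x := by
    rw [← sum_sub_distrib]
    refine dvd_sum fun x _ => ?_
    rcases h01 x with h | h | h <;> simp [h]
  rw [h1] at h2
  obtain ⟨m, hm⟩ := hodd
  obtain ⟨k, hk⟩ := h2
  rw [hm] at hk
  push_cast at hk
  exact ⟨m - k, by linarith⟩

theorem card_abs_one {u : X → ℤ} (hu : C.Odd' u) (h01 : ∀ x, u x = 0 ∨ u x = 1 ∨ u x = -1) :
    (univ.filter fun x => |u x| = 1).card = 2 * (univ.filter fun x => u x = 1).card := by
  obtain ⟨Φ, hΦ⟩ := C.exists_half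
  have h1 := half_abs hu h01 hΦ
  have h2 := C.sum_half hΦ fun x => |u x|
  simp only [hu _, abs_neg] at h2
  have h3 : ∑ x, |u x| = (univ.filter fun x => |u x| = 1).card := by
    rw [card_filter]; push_cast
    refine sum_congr rfl fun x _ => ?_
    rcases h01 x with h | h | h <;> simp [h]
  omega

theorem card_zero {u : X → ℤ} (hu : C.Odd' u) (h01 : ∀ x, u x = 0 ∨ u x = 1 ∨ u x = -1) :
    (univ.filter fun x => u x = 0).card + 2 * (univ.filter fun x => u x = 1).card =
      Fintype.card X := by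
  rw [← card_abs_one hu h01, ← card_univ, ← card_filter_add_card_filter_not (s := univ)
    (fun x => u x = 0)]
  congr 2
  ext x
  rcases h01 x with h | h | h <;> simp [h]

theorem caseS [Finite G] [IsPretransitive G X] {u r : X → ℤ} (hu : C.Odd' u)
    (h01 : ∀ x, u x = 0 ∨ u x = 1 ∨ u x = -1) {l a : ℕ} (hl : l.Prime)
    (hX : Fintype.card X = 2 * l ^ a) (hodd : Odd (univ.filter fun x => u x = 1).card)
    (hlt : l = 2 ∨ (univ.filter fun x => u x = 1).card < l) (hr : C.Rel u r) : r = 0 := by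
  have := Fact.mk hl
  refine thmS hu hX (fun Φ hΦ hd => ?_) hr
  have h1 := half_odd hu h01 hodd hΦ
  rcases hlt with rfl | hlt
  · exact (Int.not_even_iff_odd.2 h1) (even_iff_two_dvd.2 hd)
  · have h2 : |∑ x ∈ Φ, u x| < l := by
      refine lt_of_le_of_lt (abs_sum_le_sum_abs _ _) ?_
      rw [half_abs hu h01 hΦ]; exact_mod_cast hlt
    have h3 := Int.eq_zero_of_abs_lt_dvd hd h2
    rw [h3] at h1
    simp at h1

theorem sum_T {u s : X → ℤ} (hu : C.Odd' u) (hs : C.Odd' s)
    (h01 : ∀ x, u x = 0 ∨ u x = 1 ∨ u x = -1) :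
    ∑ x, s x * u x = 2 * ∑ x ∈ univ.filter fun x => u x = 1, s x := by
  have h1 : ∑ x, s x * u x = ∑ x, (if u x = 1 then s x else 0) +
      ∑ x, (if u (C.c • x) = 1 then s (C.c • x) else 0) := by
    rw [← sum_add_distrib]
    refine sum_congr rfl fun x _ => ?_
    rw [hu, hs]
    rcases h01 x with h | h | h <;> simp [h]
  have h2 : ∑ x, (if u (C.c • x) = 1 then s (C.c • x) else 0) = ∑ x, (if u x = 1 then s x else 0) :=
    Fintype.sum_equiv (MulAction.toPerm C.c) _ _ fun x => rfl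
  rw [h1, h2, sum_filter]; ring

theorem zero_of_const [IsPretransitive G X] {u r : X → ℤ} (hu : C.Odd' u)
    (h01 : ∀ x, u x = 0 ∨ u x = 1 ∨ u x = -1) {a : X} (ha : u a = 1)
    (hconst : ∀ s, C.Rel u s → ∀ x, u x = 1 → s x = s a) (hr : C.Rel u r) : r = 0 := by
  funext x
  obtain ⟨γ, rfl⟩ := exists_smul_eq G a x
  have hs := hr.smul γ
  have h1 := hs.2 1
  simp only [one_smul] at h1
  rw [sum_T hu hs.1 h01, sum_congr rfl (fun x hx => hconst _ hs x (mem_filter.1 hx).2), sum_const,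
    nsmul_eq_mul] at h1
  have hpos : 0 < (univ.filter fun x => u x = 1).card := card_pos.2 ⟨a, by simp [ha]⟩
  have : ((univ.filter fun x => u x = 1).card : ℤ) ≠ 0 := by omega
  exact (mul_eq_zero.1 ((mul_eq_zero.1 h1).resolve_left two_ne_zero)).resolve_left this

theorem caseOne [IsPretransitive G X] {u r : X → ℤ} (hu : C.Odd' u)
    (h01 : ∀ x, u x = 0 ∨ u x = 1 ∨ u x = -1) (h1 : (univ.filter fun x => u x = 1).card = 1)
    (hr : C.Rel u r) : r = 0 := by
  obtain ⟨a, ha⟩ := card_eq_one.1 h1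
  have h2 : ∀ x, u x = 1 ↔ x = a := fun x => by
    rw [← mem_singleton (b := x), ← ha]; simp
  exact zero_of_const hu h01 ((h2 a).2 rfl) (fun s _ x hx => by rw [(h2 x).1 hx]) hr

theorem caseLZ [IsPretransitive G X] {u r : X → ℤ} (hu : C.Odd' u)
    (h01 : ∀ x, u x = 0 ∨ u x = 1 ∨ u x = -1) {g : ℕ} (hX : Fintype.card X = 2 * g) (hg : Even g)
    (h1 : (univ.filter fun x => u x = 1).card + 1 = g) (hr : C.Rel u r) : r = 0 := by
  have h2 := card_zero hu h01
  have h3 : (univ.filter fun x => u x = 0).card = 2 := by omega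
  obtain ⟨z, hz⟩ : (univ.filter fun x => u x = 0).Nonempty := by rw [← card_pos]; omega
  have h4 : ({z, C.c • z} : Finset X) = univ.filter fun x => u x = 0 := by
    apply eq_of_subset_of_card_le _ (by rw [card_pair (C.ne z).symm]; omega)
    intro x hx
    simp only [mem_filter, mem_univ, true_and] at hz ⊢
    simp only [mem_insert, mem_singleton] at hx
    rcases hx with rfl | rfl
    · exact hz
    · rw [hu, hz, neg_zero]
  refine thmLZ hu hX hg (z := z) (fun x => ?_) hr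
  have h5 : x ∈ ({z, C.c • z} : Finset X) ↔ x ∈ univ.filter fun x => u x = 0 := by rw [h4]
  simp only [mem_insert, mem_singleton, mem_filter, mem_univ, true_and] at h5
  rw [h5]
  rcases h01 x with h | h | h <;> simp [h]

theorem orbit_eq_T {u : X → ℤ} (D : Subgroup G) (hD : ∀ d ∈ D, ∀ x, u (d • x) = u x)
    (hDT : ∀ x y, u x = 1 → u y = 1 → ∃ d ∈ D, d • x = y) {a : X} (ha : u a = 1) :
    Nat.card (orbit D a) = (univ.filter fun x => u x = 1).card := by
  have : orbit D a = ↑(univ.filter fun x => u x = 1) := by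
    ext y
    simp only [coe_filter, mem_univ, true_and, Set.mem_ofPred_eq]
    constructor
    · rintro ⟨d, rfl⟩
      exact (hD d d.2 a).trans ha
    · intro hy
      obtain ⟨d, hd, rfl⟩ := hDT a y ha hy
      exact ⟨⟨d, hd⟩, rfl⟩
  rw [this, Nat.card_coe_set_eq, Set.ncard_coe_finset]

/-- A group with an orbit of size divisible by `l` has an element of order `l` moving a point
(when it is replaced by a suitable power). -/
theorem exists_mover [Finite G] (hf : ∀ γ : G, (∀ x : X, γ • x = x) → γ = 1) (D : Subgroup G)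
    {l : ℕ} (hl : l.Prime) {a : X} (h : l ∣ Nat.card (orbit D a)) :
    ∃ τ ∈ D, τ ^ l = 1 ∧ ∃ x : X, τ • x ≠ x := by
  have := Fact.mk hl
  have h1 : l ∣ Nat.card D := by
    refine h.trans ?_
    rw [Nat.card_coe_set_eq, ← index_stabilizer]
    exact Subgroup.index_dvd_card _
  obtain ⟨τ, hτ⟩ := exists_prime_orderOf_dvd_card' l h1
  refine ⟨τ, τ.2, ?_, ?_⟩
  · have := pow_orderOf_eq_one τ
    rw [hτ] at this
    exact_mod_cast congrArg Subtype.val this
  · by_contra hcon
    push Not at hcon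
    have h2 : τ = 1 := Subtype.ext (hf _ hcon)
    rw [h2, orderOf_one] at hτ
    exact hl.one_lt.ne hτ

theorem caseT [Finite G] [IsPretransitive G X] (hf : ∀ γ : G, (∀ x : X, γ • x = x) → γ = 1)
    {u r : X → ℤ} (hu : C.Odd' u) (h01 : ∀ x, u x = 0 ∨ u x = 1 ∨ u x = -1)
    (D : Subgroup G) (hD : ∀ d ∈ D, ∀ x, u (d • x) = u x)
    (hDT : ∀ x y, u x = 1 → u y = 1 → ∃ d ∈ D, d • x = y)
    (hsep : ∀ x y : X, (∀ g : G, u (g • x) = u (g • y)) → x = y)
    {l : ℕ} (hl : l.Prime) (ho : Odd l) (h1 : (univ.filter fun x => u x = 1).card = l)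
    (hX : Fintype.card X < 4 * l) (hr : C.Rel u r) : r = 0 := by
  have hlpos := hl.pos
  obtain ⟨a, ha⟩ : (univ.filter fun x => u x = 1).Nonempty := by rw [← card_pos]; omega
  have ha : u a = 1 := (mem_filter.1 ha).2
  obtain ⟨τ, hτD, hτ, x₀, hx₀⟩ := exists_mover hf D hl (a := a)
    (by rw [orbit_eq_T D hD hDT ha, h1])
  have hz := card_zero hu h01
  have habs := card_abs_one hu h01
  have hcard : ∀ x, (univ.filter fun y => |u y| = |u x|).card <
      if |u x| = 1 then 4 * l else 2 * l := fun x => by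
    split_ifs with h
    · rw [h]; omega
    · have h0 : u x = 0 := by rcases h01 x with h' | h' | h' <;> simp_all
      simp only [h0, abs_zero, abs_eq_zero]; omega
  have hmov := moved_of_card hu hl ho hτ (hD τ hτD) hx₀ 1 hcard
  have hpow : ∀ (k : ℕ) (y : X), u (τ ^ k • y) = u y := fun k y => hD _ (D.pow_mem hτD k) y
  have hsub : univ.image (C.cyc τ l x₀) ⊆ univ.filter fun z => |u z| = |u x₀| := by
    intro z hz
    obtain ⟨i | i, -, rfl⟩ := mem_image.1 hz
    · simp [cyc, hpow]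
    · simp [cyc, hu _, hpow]
  have hc : (univ.image (C.cyc τ l x₀)).card = 2 * l := by
    rw [card_image_of_injective _ (C.cyc_inj hl ho hτ hx₀)]; simp [two_mul]
  have hx1 : |u x₀| = 1 := by
    by_contra h
    have h2 := hcard x₀
    rw [if_neg h] at h2
    have := card_le_card hsub
    omega
  rw [hx1] at hsub
  have heq := eq_of_subset_of_card_le hsub (by omega)
  refine zero_of_const hu h01 ha (fun s hs => ?_) hr
  have hinv : ∀ (k : ℕ) (y : X), s (τ ^ k • y) = s y := fun k y => by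
    induction k with
    | zero => simp
    | succ k ih => rw [pow_succ', mul_smul, hs.inv_of_cycle hu hl ho hτ hx₀ hmov hsep, ih]
  have key : ∀ x, u x = 1 → s x = u x₀ * s x₀ := fun x hx => by
    have : x ∈ univ.image (C.cyc τ l x₀) := by rw [heq]; simp [hx]
    obtain ⟨i | i, -, rfl⟩ := mem_image.1 this
    · simp only [cyc, Sum.elim_inl, hpow, hinv] at hx ⊢
      rw [hx, one_mul]
    · simp only [cyc, Sum.elim_inr, hu _, hpow, hs.1 _, hinv] at hx ⊢
      rw [neg_eq_iff_eq_neg.1 hx]; ring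
  intro x hx
  rw [key x hx, key a ha]

theorem caseNine [Finite G] [IsPretransitive G X] {u r : X → ℤ} (hu : C.Odd' u)
    (h01 : ∀ x, u x = 0 ∨ u x = 1 ∨ u x = -1)
    (D : Subgroup G) (hD : ∀ d ∈ D, ∀ x, u (d • x) = u x)
    (hDT : ∀ x y, u x = 1 → u y = 1 → ∃ d ∈ D, d • x = y)
    (hsep : ∀ x y : X, (∀ g : G, u (g • x) = u (g • y)) → x = y)
    (h1 : (univ.filter fun x => u x = 1).card = 9) (hX : Fintype.card X = 18)
    (hr : C.Rel u r) : r = 0 := by
  by_contra h0
  have := Fact.mk Nat.prime_three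
  have hz := card_zero hu h01
  have hpm : ∀ x, u x = 1 ∨ u x = -1 := fun x => by
    refine (h01 x).resolve_left fun h => ?_
    have : 0 < (univ.filter fun x => u x = 0).card := card_pos.2 ⟨x, by simp [h]⟩
    omega
  set T := univ.filter fun x => u x = 1 with hT
  have hTh : C.Half T := fun x => by
    simp only [hT, mem_filter, mem_univ, true_and, hu x]
    rcases hpm x with h | h <;> simp [h]
  obtain ⟨a, ha⟩ : T.Nonempty := by rw [← card_pos]; omega
  have ha : u a = 1 := (mem_filter.1 ha).2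
  obtain ⟨Q⟩ : Nonempty (Sylow 3 D) := inferInstance
  have hQ : 3 ^ 2 ∣ Nat.card (orbit (Q : Subgroup D) a) :=
    sylow_orbit Q a (by rw [orbit_eq_T D hD hDT ha, ← hT, h1]; norm_num)
  have hQT : orbit (Q : Subgroup D) a = ↑T := by
    refine Set.eq_of_subset_of_ncard_le ?_ ?_ (Set.toFinite _)
    · rintro _ ⟨d, rfl⟩
      simp only [hT, coe_filter, mem_univ, true_and, Set.mem_ofPred_eq]
      exact (hD _ d.1.2 a).trans ha
    · rw [Set.ncard_coe_finset, h1, ← Nat.card_coe_set_eq]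
      have : Nonempty (orbit (Q : Subgroup D) a) := ⟨⟨a, mem_orbit_self _⟩⟩
      exact Nat.le_of_dvd Nat.card_pos hQ
  have hdvd : ∀ γ : G, (3 : ℤ) ∣ ∑ x ∈ T, u (γ • x) := fun γ =>
    hr.dvd_half hu h0 ((Q : Subgroup D).map D.subtype) (Q.isPGroup'.map _) a hTh (fun x hx => by
      have : x ∈ orbit (Q : Subgroup D) a := by rw [hQT]; exact hx
      obtain ⟨d, rfl⟩ := this
      exact ⟨d.1.1, ⟨d.1, d.2, rfl⟩, rfl⟩) γ
  let S : G → Finset X := fun γ => T.filter fun x => u (γ • x) = -1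
  have hST : ∀ γ, S γ ⊆ T := fun γ => filter_subset _ _
  have hind : ∀ γ, ∀ x ∈ T, u (γ • x) = 1 - 2 * (if x ∈ S γ then 1 else 0) := fun γ x hx => by
    rcases hpm (γ • x) with h | h <;> simp [S, h, hx]
  have hsumind : ∀ A : Finset X, A ⊆ T → ∑ x ∈ T, (if x ∈ A then (1 : ℤ) else 0) = A.card :=
    fun A hA => by
      rw [sum_boole, filter_mem_eq_inter, inter_eq_right.2 hA]
  have hI : ∀ γ, ∑ x ∈ T, u (γ • x) = 9 - 2 * (S γ).card := fun γ => by
    rw [sum_congr rfl (hind γ), sum_sub_distrib, ← mul_sum, hsumind _ (hST γ)]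
    simp [h1]
  have hJ : ∀ γ δ : G, ∑ x ∈ T, u (γ • x) * u (δ • x) =
      9 - 2 * (S γ).card - 2 * (S δ).card + 4 * (S γ ∩ S δ).card := fun γ δ => by
    have : ∀ x ∈ T, u (γ • x) * u (δ • x) = 1 - 2 * (if x ∈ S γ then 1 else 0) -
        2 * (if x ∈ S δ then 1 else 0) + 4 * (if x ∈ S γ ∩ S δ then 1 else 0) := fun x hx => by
      rw [hind γ x hx, hind δ x hx]
      by_cases h2 : x ∈ S γ <;> by_cases h3 : x ∈ S δ <;> simp [h2, h3]
    rw [sum_congr rfl this, sum_add_distrib, sum_sub_distrib, sum_sub_distrib, ← mul_sum,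
      ← mul_sum, ← mul_sum, hsumind _ (hST γ), hsumind _ (hST δ),
      hsumind _ (inter_subset_left.trans (hST γ))]
    simp [h1]
  have hJI : ∀ γ δ : G, ∑ x ∈ T, u (γ • x) * u (δ • x) = ∑ x ∈ T, u ((δ * γ⁻¹) • x) := fun γ δ => by
    have e1 := C.sum_half hTh fun x => u (γ • x) * u (δ • x)
    simp only [C.comm, hu _, neg_mul_neg] at e1
    have e2 : ∑ x, u (γ • x) * u (δ • x) = ∑ x, u ((δ * γ⁻¹) • x) * u x :=
      Fintype.sum_equiv (MulAction.toPerm γ) _ _ fun x => by simp [mul_smul, mul_comm]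
    rw [sum_T hu (fun x => by rw [C.comm, hu]) h01, ← hT] at e2
    linarith
  have hsepar : ∀ x ∈ T, ∀ y ∈ T, x ≠ y → ∃ γ, (S γ).card = 3 ∧ ¬ (x ∈ S γ ↔ y ∈ S γ) := by
    intro x hx y hy hxy
    obtain ⟨γ, hγ⟩ : ∃ γ : G, u (γ • x) ≠ u (γ • y) := by
      by_contra h; push Not at h; exact hxy (hsep _ _ h)
    have hcγ : ∀ z, u ((C.c * γ) • z) = - u (γ • z) := fun z => by rw [mul_smul, hu]
    have hn : ∀ δ : G, u (δ • x) ≠ u (δ • y) → ¬ (x ∈ S δ ↔ y ∈ S δ) := fun δ hδ => by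
      simp only [S, mem_filter, hx, hy, true_and]
      rcases hpm (δ • x) with h | h <;> rcases hpm (δ • y) with h' | h' <;>
        rw [h, h'] at hδ ⊢ <;> simp at hδ ⊢
    have hpos : ∀ δ : G, u (δ • x) ≠ u (δ • y) → 0 < (S δ).card := fun δ hδ => by
      have := hn δ hδ
      refine card_pos.2 ?_
      by_cases h : x ∈ S δ
      · exact ⟨x, h⟩
      · exact ⟨y, by tauto⟩
    have hγ' : u ((C.c * γ) • x) ≠ u ((C.c * γ) • y) := by
      rw [hcγ, hcγ]; exact fun h => hγ (neg_injective h)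
    have e1 := hI γ
    have e2 := hI (C.c * γ)
    simp only [hcγ, sum_neg_distrib] at e2
    have e3 := hdvd γ
    have e4 := hpos γ hγ
    have e5 := hpos _ hγ'
    by_cases h3 : (S γ).card = 3
    · exact ⟨γ, h3, hn γ hγ⟩
    · exact ⟨C.c * γ, by omega, hn _ hγ'⟩
  obtain ⟨x, hx, y, hy, hxy⟩ := one_lt_card.1 (show 1 < T.card by omega)
  obtain ⟨γ, hγ, -⟩ := hsepar x hx y hy hxy
  obtain ⟨b, hb, b', hb', hbb⟩ := one_lt_card.1 (show 1 < (S γ).card by omega)
  obtain ⟨δ, hδ, hδ'⟩ := hsepar b (hST γ hb) b' (hST γ hb') hbb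
  have e1 := hJ γ δ
  rw [hJI, hγ, hδ] at e1
  have e2 := hdvd (δ * γ⁻¹)
  have e3 : 0 < (S γ ∩ S δ).card := by
    refine card_pos.2 ?_
    by_cases h : b ∈ S δ
    · exact ⟨b, mem_inter.2 ⟨hb, h⟩⟩
    · exact ⟨b', mem_inter.2 ⟨hb', by tauto⟩⟩
  have e4 : (S γ ∩ S δ).card < (S γ).card := by
    refine card_lt_card ⟨inter_subset_left, fun h => ?_⟩
    exact hδ' ⟨fun _ => (mem_inter.1 (h hb')).2, fun _ => (mem_inter.1 (h hb)).2⟩
  omega

/-- Odd orbit size and at most eleven lines: no nonzero relation outside four cases. -/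
theorem thmK3 [Finite G] [IsPretransitive G X] (hf : ∀ γ : G, (∀ x : X, γ • x = x) → γ = 1)
    {u r : X → ℤ} (hu : C.Odd' u) (h01 : ∀ x, u x = 0 ∨ u x = 1 ∨ u x = -1)
    (D : Subgroup G) (hD : ∀ d ∈ D, ∀ x, u (d • x) = u x)
    (hDT : ∀ x y, u x = 1 → u y = 1 → ∃ d ∈ D, d • x = y)
    (hsep : ∀ x y : X, (∀ g : G, u (g • x) = u (g • y)) → x = y)
    {g h : ℕ} (hX : Fintype.card X = 2 * g) (hT : (univ.filter fun x => u x = 1).card = h)
    (hodd : Odd h) (hg : g ≤ 11)
    (hexc : (g, h) ∉ ({(6, 3), (9, 3), (10, 3), (10, 5)} : Set (ℕ × ℕ)))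
    (hr : C.Rel u r) : r = 0 := by
  have hz := card_zero hu h01
  have hle : h ≤ g := by omega
  have hodd' : Odd (univ.filter fun x => u x = 1).card := hT ▸ hodd
  have S2 : ∀ a, g = 2 ^ a → r = 0 := fun a ha =>
    caseS hu h01 Nat.prime_two (a := a) (by rw [hX, ha]) hodd' (Or.inl rfl) hr
  have SP : g.Prime → h < g → r = 0 := fun hp hlt =>
    caseS hu h01 hp (a := 1) (by rw [hX, pow_one]) hodd' (Or.inr (hT ▸ hlt)) hr
  have TT : h.Prime → g < 2 * h → r = 0 := fun hp hlt =>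
    caseT hf hu h01 D hD hDT hsep hp hodd hT (by omega) hr
  simp only [Set.mem_insert_iff, Set.mem_singleton_iff, Prod.mk.injEq] at hexc
  obtain ⟨m, hm⟩ := hodd
  by_cases h1 : h = 1
  · exact caseOne hu h01 (hT.trans h1) hr
  by_cases h9 : h = 9
  · by_cases g9 : g = 9
    · exact caseNine hu h01 D hD hDT hsep (hT.trans h9) (by omega) hr
    by_cases g10 : g = 10
    · exact caseLZ hu h01 hX (by rw [g10]; decide) (by omega) hr
    · have : g = 11 := by omega
      exact SP (by rw [this]; norm_num) (by omega)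
  have hp : h.Prime := by
    have : h = 3 ∨ h = 5 ∨ h = 7 ∨ h = 11 := by omega
    rcases this with rfl | rfl | rfl | rfl <;> norm_num
  by_cases hlt : g < 2 * h
  · exact TT hp hlt
  have : g = 7 ∨ g = 8 ∨ g = 11 := by omega
  rcases this with rfl | rfl | rfl
  · exact SP (by norm_num) (by omega)
  · exact S2 3 rfl
  · exact SP (by norm_num) (by omega)

end Conj

end Pool.Agent.Lib.MP_557161_ag
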