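import Mathlib
import Pool.Agent.Shared.Stickelberger
import Pool.Agent.Shared.GaussKronecker
import Pool.Agent.Shared.FermatCount
import Pool.Agent.Lib.MP_60ec62_ag.AnchorMain

/-!
The pole order of the zeta function of a Fermat variety counts the Stickelberger balanced
characters.
-/

namespace Pool.Agent.Lib.MP_557161_ag

open Finset Pool.Agent.Lib.MP_60ec62_ag

theorem bal_iff {m : ℕ} [NeZero m] (p f : ℕ) (hpu : IsUnit (p : ZMod m)) (k : ℕ)
    (a : Fin (2 * k) → ZMod m) (ha : ∀ i, a i ≠ 0) (t : (ZMod m)ˣ) :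
    ∑ i, ∑ j ∈ range f, ((t : ZMod m) * (p : ZMod m) ^ j * a i).val = f * k * m ↔
      ∑ i, ∑ j ∈ range f, B ((t : ZMod m) * (p : ZMod m) ^ j * a i) = 0 := by
  have h9 : ∀ i j, B ((t : ZMod m) * (p : ZMod m) ^ j * a i)
      = 2 * (((t : ZMod m) * (p : ZMod m) ^ j * a i).val : ℤ) - m := fun i j => by
    rw [B, if_neg]
    rw [(t.isUnit.mul (hpu.pow j)).mul_right_eq_zero]
    exact ha i
  rw [← Nat.cast_inj (R := ℤ), Nat.cast_sum]
  simp only [h9, sum_sub_distrib, ← mul_sum, sum_const, card_range, card_univ, Fintype.card_fin,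
    nsmul_eq_mul, Nat.cast_sum, Nat.cast_mul, Nat.cast_ofNat]
  constructor <;> intro h <;> linarith

theorem pole_of_iff (p m n f : ℕ) [Fact p.Prime] [NeZero m] (hf : 0 < f)
    (hpf : (p : ZMod m) ^ f = 1) (Q : (Fin (2 * (n + 1)) → ZMod m) → Prop)
    (hQ : ∀ a, (∀ i, a i ≠ 0) → ((∀ t : (ZMod m)ˣ,
      ∑ i, ∑ j ∈ range f, B ((t : ZMod m) * (p : ZMod m) ^ j * a i) = 0) ↔ Q a)) :
    ∃ r₀ : ℕ, 0 < r₀ ∧ ∀ (K : Type) [Field K] [Finite K] [CharP K p] (r : ℕ),
      Nat.card K = p ^ r → r₀ ∣ r →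
      ∃ ζ : ℂ → ℂ, Meromorphic ζ ∧
        (∀ s : ℂ, (2 * n : ℝ) < s.re → ζ s = Complex.exp (∑' j : ℕ,
          (Nat.card {P : Projectivization (FiniteField.Extension K p (j + 1))
            (Fin (2 * n + 2) → FiniteField.Extension K p (j + 1)) // ∑ i, P.rep i ^ m = 0} : ℂ) *
            (Nat.card K : ℂ) ^ (-((j + 1 : ℕ) : ℂ) * s) / ((j + 1 : ℕ) : ℂ))) ∧
        meromorphicOrderAt ζ (n : ℂ) = ((-(1 + (Nat.card {a : Fin (2 * n + 2) → ZMod m //
          (∀ i, a i ≠ 0) ∧ ∑ i, a i = 0 ∧ Q a} : ℤ)) : ℤ) : WithTop ℤ) := by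
  classical
  have hp : p.Prime := Fact.out
  have hpu := IsUnit.of_pow_eq_one hpf hf.ne'
  let F := GaloisField p f
  let _ : Fintype F := Fintype.ofFinite F
  have hq : Fintype.card F = p ^ f := by
    rw [← Nat.card_eq_fintype_card, GaloisField.card p f hf.ne']
  have hmq : m ∣ Fintype.card F - 1 := by
    rw [hq, ← ZMod.natCast_eq_zero_iff, Nat.cast_sub (Nat.one_le_pow _ _ hp.pos), Nat.cast_pow,
      hpf, Nat.cast_one, sub_self]
  obtain ⟨χ, hχ⟩ := MulChar.exists_mulChar_orderOf F hmq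
    (Complex.isPrimitiveRoot_exp m (NeZero.ne m))
  obtain ⟨ψ, hψ⟩ : ∃ ψ : AddChar F ℂ, ψ ≠ 1 := ⟨AddChar.FiniteField.primitiveChar_to_Complex F, by
    have := AddChar.FiniteField.primitiveChar_to_Complex_isPrimitive F one_ne_zero
    rwa [AddChar.mulShift_one] at this⟩
  have tate_iff : ∀ a : Fin (2 * (n + 1)) → ZMod m, (∀ i, a i ≠ 0) → ((∃ N, 0 < N ∧
      (∏ i, gaussSum (χ ^ (a i).val) ψ) ^ N = (Fintype.card F : ℂ) ^ ((n + 1) * N)) ↔ Q a) := by
    intro a ha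
    rw [← hQ a ha]
    simp only [← bal_iff p f hpu _ a ha]
    constructor
    · rintro ⟨N, hN, h⟩ t
      refine Pool.Agent.Shared.Stickelberger.stickelberger_sum p f m hq χ hχ ψ hψ univ a
        (fun i _ => ha i) N (f * (n + 1)) hN ?_ t
      rw [h, hq, Nat.cast_pow, ← pow_mul, mul_assoc]
    · exact Pool.Agent.Shared.GaussKronecker.exists_pow_eq p f m hq χ hχ ψ hψ univ a
        (fun i _ => ha i) (n + 1) (by simp)
  set q₀ : ℂ := (Fintype.card F : ℂ) with hq₀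
  have hq₀0 : q₀ ≠ 0 := Nat.cast_ne_zero.2 Fintype.card_ne_zero
  let G : (Fin (2 * n + 2) → ZMod m) → ℂ := fun a => ∏ i, gaussSum (χ ^ (a i).val) ψ
  have hN : ∀ a, ∃ N, 0 < N ∧ ((∃ N, 0 < N ∧ G a ^ N = q₀ ^ ((n + 1) * N)) →
      G a ^ N = q₀ ^ ((n + 1) * N)) := by
    intro a
    by_cases h : ∃ N, 0 < N ∧ G a ^ N = q₀ ^ ((n + 1) * N)
    · obtain ⟨N, h1, h2⟩ := h
      exact ⟨N, h1, fun _ => h2⟩
    · exact ⟨1, one_pos, fun h' => absurd h' h⟩
  choose N hN0 hN using hN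
  refine ⟨f * ∏ a, N a, Nat.mul_pos hf (prod_pos fun a _ => hN0 a), fun K _ _ _ r hK ⟨c, hc⟩ => ?_⟩
  set e := (∏ a, N a) * c with he
  have hKe : Nat.card K = Fintype.card F ^ e := by rw [hK, hq, ← pow_mul, hc, mul_assoc]
  have hK1 : 1 < Nat.card K := Finite.one_lt_card
  have he0 : 0 < e := by
    rcases Nat.eq_zero_or_pos e with h | h
    · rw [h, pow_zero] at hKe; omega
    · exact h
  have hKe' : (Nat.card K : ℂ) = q₀ ^ e := by rw [hKe, Nat.cast_pow]
  set A := univ.filter fun a : Fin (2 * n + 2) → ZMod m => (∀ i, a i ≠ 0) ∧ ∑ i, a i = 0 with hA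
  obtain ⟨ζ, h1, h2, h3⟩ := Pool.Agent.Shared.FermatCount.zeta_order ((range (2 * n + 1)).disjSum A)
    (Sum.elim (fun i => (Nat.card K : ℂ) ^ i) fun a => (G a / q₀) ^ e) (Nat.card K) hK1 (2 * n) n
    (by
      have hK2 : (1 : ℝ) ≤ Nat.card K := by exact_mod_cast hK1.le
      rintro (i | a) hi
      · rw [inl_mem_disjSum, mem_range] at hi
        rw [Sum.elim_inl, norm_pow, Complex.norm_natCast]
        exact pow_le_pow_right₀ hK2 (by omega)
      · rw [inr_mem_disjSum] at hi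
        have e1 := Pool.Agent.Shared.GaussKronecker.norm_prod_gaussSum χ hχ ψ hψ univ a
          (fun i _ => (mem_filter.1 hi).2.1 i) (n + 1) (by simp [mul_add])
        rw [Sum.elim_inr, norm_pow, norm_div, e1, hq₀, Complex.norm_natCast, pow_succ,
          mul_div_cancel_right₀ _ (Nat.cast_ne_zero.2 Fintype.card_ne_zero), ← pow_mul, mul_comm,
          pow_mul, ← Nat.cast_pow, ← hKe]
        exact pow_le_pow_right₀ hK2 (by omega))
    (fun j => (Nat.card {P : Projectivization (FiniteField.Extension K p (j + 1))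
      (Fin (2 * n + 2) → FiniteField.Extension K p (j + 1)) // ∑ i, P.rep i ^ m = 0} : ℂ))
    (fun j => by
      have : CharP (FiniteField.Extension K p (j + 1)) p :=
        charP_of_injective_algebraMap (algebraMap K _).injective p
      rw [Pool.Agent.Shared.FermatCount.weil_count_ext p χ hχ ψ hψ n (e * (j + 1))
        (by rw [FiniteField.natCard_extension, hKe, ← pow_mul]), sum_disjSum]
      simp only [Sum.elim_inl, Sum.elim_inr, hKe', ← pow_mul, ← hq₀]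
      congr 1
      exact sum_congr rfl fun i _ => by ring)
  refine ⟨ζ, h1, fun s hs => h2 s (by exact_mod_cast hs), h3.trans ?_⟩
  congr 2
  rw [sum_disjSum]
  congr 1
  · have e1 : ∀ i : ℕ, (Nat.card K : ℂ) ^ i = (Nat.card K : ℂ) ^ n ↔ i = n := fun i => by
      rw [← Nat.cast_pow, ← Nat.cast_pow, Nat.cast_inj, Nat.pow_right_inj hK1]
    simp only [Sum.elim_inl, e1, sum_ite_eq', mem_range]
    rw [if_pos (by omega)]
  · rw [sum_boole, hA, filter_filter, Nat.card_eq_fintype_card (α := Subtype _),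
      Fintype.card_subtype]
    congr 2
    ext a
    simp only [mem_filter, mem_univ, true_and]
    rw [and_assoc]
    refine and_congr_right fun ha => and_congr_right fun _ => ?_
    refine Iff.trans ?_ (tate_iff a ha)
    rw [Sum.elim_inr, hKe', div_pow, div_eq_iff (pow_ne_zero _ hq₀0), ← pow_mul, ← pow_add]
    constructor
    · intro h
      exact ⟨e, he0, h.trans (by ring)⟩
    · intro h
      obtain ⟨b, hb⟩ : N a ∣ e := (dvd_prod_of_mem N (mem_univ a)).mul_right c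
      rw [hb, pow_mul, hN a h]
      ring

theorem bal_up {M m g : ℕ} [NeZero M] [NeZero m] (h : M = g * m) (p f : ℕ) {I : Type*}
    [Fintype I] (a : I → ZMod m) :
    (∀ t : (ZMod m)ˣ, ∑ i, ∑ j ∈ range f, B ((t : ZMod m) * (p : ZMod m) ^ j * a i) = 0) ↔
      ∀ t : (ZMod M)ˣ,
        ∑ i, ∑ j ∈ range f, B ((t : ZMod M) * (p : ZMod M) ^ j * up M g (a i)) = 0 := by
  have hd : m ∣ M := ⟨g, by rw [h, mul_comm]⟩
  have hg : 0 < g := Nat.pos_of_dvd_of_pos ⟨m, h⟩ (NeZero.pos M)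
  have e1 : ∀ (t : (ZMod M)ˣ) (j : ℕ) (u : ZMod m), (t : ZMod M) * (p : ZMod M) ^ j * up M g u
      = up M g ((ZMod.unitsMap hd t : ZMod m) * (p : ZMod m) ^ j * u) := by
    intro t j u
    rw [ZMod.unitsMap_val, ZMod.cast_eq_val, ← Nat.cast_pow, ← Nat.cast_pow, ← Nat.cast_mul,
      up_mul h, Nat.cast_mul, ZMod.natCast_zmod_val]
  simp only [e1, B_up h, ← mul_sum, mul_eq_zero, Nat.cast_eq_zero, hg.ne', false_or]
  exact (ZMod.unitsMap_surjective hd).forall

theorem up_ne_zero {M m g : ℕ} [NeZero M] [NeZero m] (h : M = g * m) {w : ZMod m} (hw : w ≠ 0) :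
    up M g w ≠ 0 := by
  have hg : 0 < g := Nat.pos_of_dvd_of_pos ⟨m, h⟩ (NeZero.pos M)
  rw [up, Ne, ZMod.natCast_eq_zero_iff, h, Nat.mul_dvd_mul_iff_left hg, ← ZMod.natCast_eq_zero_iff,
    ZMod.natCast_zmod_val]
  exact hw

/-- the order of an odd `p` modulo a large power of two is divisible by `2 ^ (i + 1)`. -/
theorem two_pow_dvd (p i A j : ℕ) (hp : 1 < p) (hodd : Odd p) (hA : p ^ 2 ^ i ≤ A)
    (hj : (p : ZMod (2 ^ A)) ^ j = 1) : 2 ^ (i + 1) ∣ j := by
  have hA0 : 0 < A := (Nat.pow_pos (by omega)).trans_le hA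
  have h1 : (p : ZMod (2 ^ A)) ^ 2 ^ (A - 1) = 1 := by
    have := Nat.ModEq.pow_totient (n := 2 ^ A) (x := p)
      ((Nat.coprime_two_right.2 hodd).pow_right A)
    rw [Nat.totient_prime_pow Nat.prime_two hA0, ← ZMod.natCast_eq_natCast_iff] at this
    simpa using this
  obtain ⟨e, -, he⟩ := (Nat.dvd_prime_pow Nat.prime_two).1 (orderOf_dvd_of_pow_eq_one h1)
  refine Dvd.dvd.trans ?_ (orderOf_dvd_of_pow_eq_one hj)
  rw [he]
  refine pow_dvd_pow 2 ?_
  by_contra hlt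
  have h2 : (p : ZMod (2 ^ A)) ^ 2 ^ i = 1 :=
    orderOf_dvd_iff_pow_eq_one.1 (he ▸ pow_dvd_pow 2 (by omega))
  have h3 : 1 < p ^ 2 ^ i := Nat.one_lt_pow (by positivity) hp
  rw [← sub_eq_zero, ← Nat.cast_pow, ← Nat.cast_one, ← Nat.cast_sub h3.le,
    ZMod.natCast_eq_zero_iff] at h2
  have h4 := Nat.le_of_dvd (by omega) h2
  have h5 := A.lt_two_pow_self
  omega

theorem pow_ne_neg_one (p A j : ℕ) (hp : 1 < p) (hodd : Odd p) (hA : p ^ 2 ≤ A) :
    (p : ZMod (2 ^ A)) ^ j ≠ -1 := by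
  intro h
  have h1 := two_pow_dvd p 1 A (j * 2) hp hodd hA (by rw [pow_mul, h]; simp)
  obtain ⟨c, rfl⟩ : 2 ∣ j := by omega
  have h2 : 4 ∣ 2 ^ A := pow_dvd_pow 2 (show 2 ≤ A by nlinarith)
  have h3 := congrArg (ZMod.castHom h2 (ZMod 4)) h
  rw [map_pow, map_neg, map_one, mul_comm, pow_mul] at h3
  revert h3
  generalize (ZMod.castHom h2 (ZMod 4)) p ^ c = x
  decide +revert

end Pool.Agent.Lib.MP_557161_ag
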